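import Pool.Agent.ETCG.Main
import Pool.Agent.ETCMR.Fin2

/-!
# Rigid elements: the theorem for quaternionic structures (helper13)
-/

set_option autoImplicit false
set_option linter.unusedSimpArgs false
set_option linter.unusedVariables false
set_option linter.unusedSectionVars false
set_option linter.unnecessarySeqFocus false

namespace Pool.Agent.ETCG

open QS
open Pool.Agent.Helper58.PLine (QData)
open Pool.Agent.ETCP
open Pool.Agent.ETCMR (IsProd IsExt prod_of_sub elem_of_prod elem_of_ext)

theorem isExt_of_bir (S : QStruct) [Finite S.G] {x : S.G}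
    (hx : Bir (ETC.toData S) (Additive.ofMul x)) : IsExt S := by
  refine ETCC.ext_of_bir (z := x) ⟨hx.ne0, hx.nee, ?_, ?_⟩
  · intro u hu
    rcases hx.rig' (Additive.ofMul u) hu with h | h
    · exact Or.inl h
    · right
      have h' : u = x * S.neg := h
      rw [h', mul_comm]
  · intro u hu
    have hu' : S.q (S.neg * x) u = S.zero := hu
    have h1 : C (ETC.toData S) (Additive.ofMul x + (ETC.toData S).e) (Additive.ofMul u) := by
      show S.q (x * S.neg) u = S.zero
      rw [mul_comm]; exact hu'
    rcases hx.rig (Additive.ofMul u) h1 with h | h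
    · exact Or.inl h
    · right
      have h' : u = x := h
      rw [h', ← mul_assoc, S.exp_two, one_mul]

theorem isProd_of_dec (S : QStruct) [Finite S.G] (h : Dec (ETC.toData S)) : IsProd S := by
  obtain ⟨A, B, hA, hB, hAB, h1, h2⟩ := h
  refine prod_of_sub S hAB h1 ?_ ((Submodule.ne_bot_iff A).1 hA) ((Submodule.ne_bot_iff B).1 hB)
  intro a ha b hb a' ha' b' hb' hc
  have k1 : C (ETC.toData S) a (a' + b') := h2 a ha b hb _ hc
  have k2 : C (ETC.toData S) a a' :=
    cof (k1.add (h1 a ha b' hb')) rfl (by apply eo; abel_nf; try simp only [ch2, ch3, ch4, ch5, ch6, add_zero, zero_add])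
  have k3 : C (ETC.toData S) (a' + b') b :=
    cof (hc.symm.add k1.symm) rfl (by apply eo; abel_nf; try simp only [ch2, ch3, ch4, ch5, ch6, add_zero, zero_add])
  have k4 : C (ETC.toData S) a' b := h1 a' ha' b hb
  exact ⟨k2, cof (k3.add' k4).symm rfl (by apply eo; abel_nf; try simp only [ch2, ch3, ch4, ch5, ch6, add_zero, zero_add])⟩

/-- **Theorem.** A finite quaternionic structure with an element `a ≠ 1, -1` such that
`D<1, a> = {1, a}` is a group extension or a product of two nontrivial structures. -/
theorem rigid_struct (S : QStruct) [Finite S.G] {a : S.G} (h1 : a ≠ 1) (h2 : a ≠ S.neg)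
    (h : ∀ b, S.q (S.neg * a) b = S.zero → b = 1 ∨ b = a) : IsExt S ∨ IsProd S := by
  have hfin : Finite (Additive S.G) := (inferInstance : Finite S.G)
  have Rv : Rg (ETC.toData S) (Additive.ofMul a) := by
    refine ⟨h1, h2, ?_⟩
    intro y hy
    have hy' : S.q (S.neg * a) (Additive.toMul y) = S.zero := by
      rw [mul_comm]; exact hy
    exact h _ hy'
  have fin : (∃ x, Bir (ETC.toData S) x) ∨ Dec (ETC.toData S) → IsExt S ∨ IsProd S := by
    rintro (⟨x, hx⟩ | hd)
    · exact Or.inl (isExt_of_bir S (x := Additive.toMul x) hx)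
    · exact Or.inr (isProd_of_dec S hd)
  by_cases he : S.neg = 1
  · apply fin
    left
    have he' : (ETC.toData S).e = 0 := he
    refine ⟨Additive.ofMul a, Rv, fun y hy => ?_⟩
    rcases Rv.rig y (by rw [he', add_zero]; exact hy) with h | h
    · exact Or.inl h
    · right; rw [h, he', add_zero]
  by_cases hr : ∃ x, ¬ C (ETC.toData S) (Additive.ofMul a) x
  · exact fin (rigid Rv hr)
  · right
    push Not at hr
    have hr0 : ∀ b, S.q a b = S.zero := fun b => hr (Additive.ofMul b)
    obtain ⟨T, L, c1, c2, -, -, c3, c4⟩ := ETCM.rad_split S h1 hr0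
    refine ⟨T, L, ?_, by omega, c4⟩
    have h3 : 2 < Nat.card S.G := by
      classical
      have := Fintype.ofFinite S.G
      rw [Nat.card_eq_fintype_card]
      have hc : ({1, a, S.neg} : Finset S.G).card = 3 := by
        rw [Finset.card_insert_of_notMem, Finset.card_insert_of_notMem, Finset.card_singleton]
        · rw [Finset.mem_singleton]; exact h2
        · simp only [Finset.mem_insert, Finset.mem_singleton, not_or]
          exact ⟨fun e => h1 e.symm, fun e => he e.symm⟩
      have := Finset.card_le_univ ({1, a, S.neg} : Finset S.G)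
      omega
    omega

/-- induction step -/
theorem elem_of_rigid (S : QStruct) [Finite S.G]
    (hT : ∀ T : QStruct, Finite T.G → Nat.card T.G < Nat.card S.G → ElemType T)
    {a : S.G} (h1 : a ≠ 1) (h2 : a ≠ S.neg)
    (h : ∀ b, S.q (S.neg * a) b = S.zero → b = 1 ∨ b = a) : ElemType S := by
  rcases rigid_struct S h1 h2 h with h | h
  · exact elem_of_ext S hT h
  · exact elem_of_prod S hT h

end Pool.Agent.ETCG
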