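import Pool.Agent.ETCG.Few
import Pool.Agent.ETCG.Struct

/-!
# Structures with at most two `a` such that `q (-1, a) = 0` are of elementary type (helper13)
-/

set_option autoImplicit false
set_option linter.unusedSimpArgs false
set_option linter.unusedVariables false
set_option linter.unusedSectionVars false
set_option linter.unnecessarySeqFocus false

namespace Pool.Agent.ETCG

open QS
open Pool.Agent.Helper58.PLine (QData)
open Pool.Agent.ETCP
open Pool.Agent.ETCMR (IsProd IsExt)

/-- at most one `a ≠ 1` has `q (-1, a) = 0` -/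
def HS (S : QStruct) : Prop :=
  ∀ a b, S.q S.neg a = S.zero → S.q S.neg b = S.zero → a ≠ 1 → b ≠ 1 → a = b

theorem iso_zero' {S T : QStruct} {φ : S.G ≃* T.G}
    (h : ∀ a b c d, S.q a b = S.q c d ↔ T.q (φ a) (φ b) = T.q (φ c) (φ d)) (a b : S.G) :
    S.q a b = S.zero ↔ T.q (φ a) (φ b) = T.zero := by
  have h1 := h a b 1 1
  rwa [S.q_one, map_one, T.q_one] at h1

theorem HS_iso {S T : QStruct} (hi : Iso S T) (h : HS T) : HS S := by
  obtain ⟨φ, h1, h2⟩ := hi
  intro a b ha hb ha1 hb1
  have k1 : T.q T.neg (φ a) = T.zero := by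
    rw [← h1]; exact (iso_zero' h2 _ _).1 ha
  have k2 : T.q T.neg (φ b) = T.zero := by
    rw [← h1]; exact (iso_zero' h2 _ _).1 hb
  apply φ.injective
  apply h _ _ k1 k2
  · intro e; apply ha1; apply φ.injective; rw [e, map_one]
  · intro e; apply hb1; apply φ.injective; rw [e, map_one]

theorem iso_symm {S T : QStruct} (hi : Iso S T) : Iso T S := by
  obtain ⟨φ, h1, h2⟩ := hi
  refine ⟨φ.symm, ?_, ?_⟩
  · rw [← h1, MulEquiv.symm_apply_apply]
  · intro a b c d
    have h4 := h2 (φ.symm a) (φ.symm b) (φ.symm c) (φ.symm d)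
    simp only [MulEquiv.apply_symm_apply] at h4
    exact h4.symm

theorem HS_left {A B : QStruct} (h : HS (prod A B)) : HS A := by
  intro a b ha hb ha1 hb1
  have key : ∀ x : A.G, A.q A.neg x = A.zero →
      (prod A B).q (prod A B).neg ((x, 1) : A.G × B.G) = (prod A B).zero := by
    intro x hx
    show (A.q A.neg x, B.q B.neg 1) = (A.zero, B.zero)
    rw [hx, B.q_one]
  have h1 := h ((a, 1) : A.G × B.G) ((b, 1) : A.G × B.G) (key a ha) (key b hb)
    (fun e => ha1 (congrArg Prod.fst e)) (fun e => hb1 (congrArg Prod.fst e))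
  exact congrArg Prod.fst h1

theorem HS_right {A B : QStruct} (h : HS (prod A B)) : HS B := by
  intro a b ha hb ha1 hb1
  have key : ∀ x : B.G, B.q B.neg x = B.zero →
      (prod A B).q (prod A B).neg ((1, x) : A.G × B.G) = (prod A B).zero := by
    intro x hx
    show (A.q A.neg 1, B.q B.neg x) = (A.zero, B.zero)
    rw [hx, A.q_one]
  have h1 := h ((1, a) : A.G × B.G) ((1, b) : A.G × B.G) (key a ha) (key b hb)
    (fun e => ha1 (congrArg Prod.snd e)) (fun e => hb1 (congrArg Prod.snd e))
  exact congrArg Prod.snd h1

theorem HS_ext {T : QStruct} (h : HS (ext T)) : HS T := by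
  intro a b ha hb ha1 hb1
  have key : ∀ x : T.G, T.q T.neg x = T.zero →
      (ext T).q (ext T).neg ((x, 1) : T.G × Multiplicative (ZMod 2)) = (ext T).zero := by
    intro x hx
    apply Subtype.ext
    show extMap T (T.neg, 1) (x, 1) = (T.zero, 1)
    rw [extMap_one_one, hx]
  have h1 := h ((a, 1) : T.G × Multiplicative (ZMod 2)) ((b, 1) : T.G × Multiplicative (ZMod 2))
    (key a ha) (key b hb)
    (fun e => ha1 (congrArg Prod.fst e)) (fun e => hb1 (congrArg Prod.fst e))
  exact congrArg Prod.fst h1

theorem few_elem : ∀ n : ℕ, ∀ S : QStruct, Finite S.G → Nat.card S.G = n → HS S → ElemType S := by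
  intro n
  induction n using Nat.strong_induction_on with
  | _ n ih =>
    intro S hf hn hS
    have hpos : 0 < Nat.card S.G := Nat.card_pos
    have hfin : Finite (Additive S.G) := hf
    have hprod : ∀ A B : QStruct, 2 ≤ Nat.card A.G → 2 ≤ Nat.card B.G → Iso (prod A B) S →
        ElemType S := by
      intro A B hA2 hB2 hi
      have hc : Nat.card A.G * Nat.card B.G = Nat.card S.G := by
        obtain ⟨φ, -, -⟩ := hi
        rw [← Nat.card_congr φ.toEquiv]
        show _ = Nat.card (A.G × B.G)
        rw [Nat.card_prod]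
      have hfA : Finite A.G := Nat.finite_of_card_ne_zero (by omega)
      have hfB : Finite B.G := Nat.finite_of_card_ne_zero (by omega)
      have hP : HS (prod A B) := HS_iso hi hS
      refine ElemType.iso _ S hi (ElemType.prod A B ?_ ?_)
      · exact ih _ (by rw [← hn, ← hc]; nlinarith) A hfA rfl (HS_left hP)
      · exact ih _ (by rw [← hn, ← hc]; nlinarith) B hfB rfl (HS_right hP)
    have hext : ∀ T : QStruct, Iso S (ext T) → ElemType S := by
      intro T hi
      have hc : 2 * Nat.card T.G = Nat.card S.G := by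
        obtain ⟨φ, -, -⟩ := hi
        rw [Nat.card_congr φ.toEquiv]
        show _ = Nat.card (T.G × Multiplicative (ZMod 2))
        rw [Nat.card_prod, Nat.card_eq_fintype_card (α := Multiplicative (ZMod 2)),
          Fintype.card_multiplicative, ZMod.card, mul_comm]
      have hfT : Finite T.G := Nat.finite_of_card_ne_zero (by omega)
      have hP : HS (ext T) := HS_iso (iso_symm hi) hS
      exact ElemType.iso _ S (iso_symm hi)
        (ElemType.ext T (ih _ (by omega) T hfT rfl (HS_ext hP)))
    rcases few (S := ETC.toData S) (fun a b ha hb ha0 hb0 =>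
      hS (Additive.toMul a) (Additive.toMul b) ha hb ha0 hb0) with h | h | h | h
    · obtain ⟨x, hx⟩ := h
      obtain ⟨T, hT⟩ := isExt_of_bir S (x := Additive.toMul x) hx
      exact hext T hT
    · obtain ⟨A, B, hA, hB, hi⟩ := isProd_of_dec S h
      exact hprod A B hA hB hi
    · obtain ⟨r, hr, hr0⟩ := h
      have hr1 : Additive.toMul r ≠ 1 := hr
      have hr2 : ∀ b, S.q (Additive.toMul r) b = S.zero := fun b => hr0 (Additive.ofMul b)
      obtain ⟨T, L, c1, c2, -, -, c3, c4⟩ := ETCM.rad_split S hr1 hr2
      have hL : ElemType L := by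
        by_cases h : L.neg = 1
        · exact ElemType.L10 L c1 h c2
        · exact ElemType.L11 L c1 h c2
      have hfT : Finite T.G := Nat.finite_of_card_ne_zero (by omega)
      have hP : HS (prod T L) := HS_iso c4 hS
      exact ElemType.iso _ S c4 (ElemType.prod T L (ih _ (by omega) T hfT rfl (HS_left hP)) hL)
    · have hall : ∀ x : S.G, x = 1 ∨ x = S.neg := fun x => h (Additive.ofMul x)
      by_cases hneg : S.neg = 1
      · apply ElemType.L0
        rw [Nat.card_eq_one_iff_unique]
        refine ⟨⟨fun a b => ?_⟩, ⟨1⟩⟩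
        have key : ∀ x : S.G, x = 1 := by
          intro x
          rcases hall x with h1 | h1
          · exact h1
          · rw [h1, hneg]
        rw [key a, key b]
      · have hc2 : Nat.card S.G = 2 := by
          rw [Nat.card_eq_two_iff]
          refine ⟨1, S.neg, fun e => hneg e.symm, ?_⟩
          rw [Set.eq_univ_iff_forall]
          intro y
          rw [Set.mem_insert_iff, Set.mem_singleton_iff]
          exact hall y
        by_cases hq : S.q S.neg S.neg = S.zero
        · apply ElemType.L11 S hc2 hneg
          intro a b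
          rcases hall a with rfl | rfl
          · rw [S.qs2]; exact S.q_one _
          · rcases hall b with rfl | rfl
            · exact S.q_one _
            · exact hq
        · exact ElemType.L1 S hc2 hneg hq

/-- the class theorem -/
theorem few_struct (S : QStruct) (hf : Finite S.G)
    (h : Nat.card {a // S.q S.neg a = S.zero} ≤ 2) : ElemType S := by
  apply few_elem _ S hf rfl
  intro a b ha hb ha1 hb1
  by_contra hab
  have h1 : S.q S.neg 1 = S.zero := S.q_one _
  have : Finite {a // S.q S.neg a = S.zero} := Subtype.finite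
  have := Fintype.ofFinite {a // S.q S.neg a = S.zero}
  rw [Nat.card_eq_fintype_card] at h
  have h3 : 2 < Fintype.card {a // S.q S.neg a = S.zero} := by
    rw [Fintype.two_lt_card_iff]
    refine ⟨⟨1, h1⟩, ⟨a, ha⟩, ⟨b, hb⟩, ?_, ?_, ?_⟩
    · intro e; exact ha1 (congrArg Subtype.val e).symm
    · intro e; exact hb1 (congrArg Subtype.val e).symm
    · intro e; exact hab (congrArg Subtype.val e)
  omega

end Pool.Agent.ETCG
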