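import Pool.Agent.ETCP.Basic
import Pool.Agent.ETC.Witt4

/-!
# One-sided rigid elements in quaternionic structures, arbitrary `-1` (helper13)

Basic facts: slots of the symbols of a rigid element, comparison of value groups, torsion-free
elements.  `S : QData V Q`, `e = -1`, `C S x y` iff `q (x, y) = 0`.
-/

set_option autoImplicit false
set_option linter.unusedSimpArgs false
set_option linter.unusedVariables false
set_option linter.unusedSectionVars false
set_option linter.unnecessarySeqFocus false

namespace Pool.Agent.ETCG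

open Pool.Agent.Helper58.PLine (QData)
open Pool.Agent.ETCP

variable {V Q : Type} [AddCommGroup V] [Module (ZMod 2) V]


variable {S : QData V Q}

theorem cof {x y x' y' : V} (h : C S x y) (hx : x = x') (hy : y = y') : C S x' y' := h.of_eq hx hy


theorem C.diag (x : V) : C S x (x + S.e) := S.diag x

theorem C.diag' (x : V) : C S (x + S.e) x := (C.diag x).symm

/-- the rigid element `v`: `D<1,v> = {1, v}` -/
structure Rg (S : QData V Q) (v : V) : Prop where
  ne0 : v ≠ 0
  nee : v ≠ S.e
  rig : ∀ y, C S (v + S.e) y → y = 0 ∨ y = v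

/-- the element `v` is birigid -/
structure Bir (S : QData V Q) (v : V) : Prop extends Rg S v where
  rig' : ∀ y, C S v y → y = 0 ∨ y = v + S.e

theorem tri_iff {x y z : V} : ETC.tri S x y z = 0 ↔
    ∃ u v, C S x u ∧ C S x v ∧ C S (z + u) (y + v) := ETC.triple_iff_comm

theorem tri_of_slot {x y z c r : V} (h1 : C S c z) (h2 : S.q x y = S.q c r) :
    ETC.tri S x y z = 0 := ETC.triple_iff_slot.2 ⟨c, r, h1, h2⟩

theorem tri_congr_q {x y x' y' z : V} (h : S.q x y = S.q x' y') (hz : ETC.tri S x y z = 0) :
    ETC.tri S x' y' z = 0 := by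
  have := ETC.MM_congr h
  have h2 : z ∈ ETC.MM S x y := hz
  rw [this] at h2
  exact h2

theorem tri_addz {x y z z' : V} (h : ETC.tri S x y z = 0) (h' : ETC.tri S x y z' = 0) :
    ETC.tri S x y (z + z') = 0 := (ETC.MM S x y).add_mem h h'

namespace Rg

variable {v : V} (R : Rg S v)
include R

theorem uv : C S (v + S.e) v := C.diag' v

/-- (R) the slots of the symbols of `u = v + e` -/
theorem slot {c x t : V} (h : S.q (v + S.e) c = S.q x t) :
    C S (x + v + S.e) c ∨ C S (x + v + S.e) (c + v) := by
  obtain ⟨s, h1, h2, h3⟩ := link h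
  rcases R.rig _ h1 with h4 | h4
  · left
    have : s = c := (eo h4).symm
    rw [this] at h3
    exact cof (h3) (by apply eo; abel_nf; try simp only [ch2, ch3, ch4, ch5, ch6, add_zero, zero_add]) (by apply eo; abel_nf; try simp only [ch2, ch3, ch4, ch5, ch6, add_zero, zero_add])
  · right
    have : s = c + v := by
      have : c + (c + s) = c + v := by rw [h4]
      rw [← this]; (apply eo; abel_nf; try simp only [ch2, ch3, ch4, ch5, ch6, add_zero, zero_add])
    rw [this] at h3
    exact cof (h3) (by apply eo; abel_nf; try simp only [ch2, ch3, ch4, ch5, ch6, add_zero, zero_add]) (by apply eo; abel_nf; try simp only [ch2, ch3, ch4, ch5, ch6, add_zero, zero_add])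

/-- three-fold symbols of `u = v + e` -/
theorem tri_iff' {x z : V} : ETC.tri S (v + S.e) x z = 0 ↔
    C S x z ∨ C S x (z + v) ∨ C S (x + v) z ∨ C S (x + v) (z + v) := by
  rw [tri_iff]
  constructor
  · rintro ⟨a, b, ha, hb, h⟩
    rcases R.rig _ ha with rfl | rfl <;> rcases R.rig _ hb with rfl | rfl
    · left; exact cof (h.symm) (by apply eo; abel_nf; try simp only [ch2, ch3, ch4, ch5, ch6, add_zero, zero_add]) (by apply eo; abel_nf; try simp only [ch2, ch3, ch4, ch5, ch6, add_zero, zero_add])
    · right; right; left; exact cof (h.symm) (by apply eo; abel_nf; try simp only [ch2, ch3, ch4, ch5, ch6, add_zero, zero_add]) (by apply eo; abel_nf; try simp only [ch2, ch3, ch4, ch5, ch6, add_zero, zero_add])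
    · right; left; exact cof (h.symm) (by apply eo; abel_nf; try simp only [ch2, ch3, ch4, ch5, ch6, add_zero, zero_add]) (by apply eo; abel_nf; try simp only [ch2, ch3, ch4, ch5, ch6, add_zero, zero_add])
    · right; right; right; exact cof (h.symm) (by apply eo; abel_nf; try simp only [ch2, ch3, ch4, ch5, ch6, add_zero, zero_add]) (by apply eo; abel_nf; try simp only [ch2, ch3, ch4, ch5, ch6, add_zero, zero_add])
  · rintro (h | h | h | h)
    · exact ⟨0, 0, C.zero _, C.zero _, by exact cof (h.symm) (by apply eo; abel_nf; try simp only [ch2, ch3, ch4, ch5, ch6, add_zero, zero_add]) (by apply eo; abel_nf; try simp only [ch2, ch3, ch4, ch5, ch6, add_zero, zero_add])⟩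
    · exact ⟨v, 0, R.uv, C.zero _, by exact cof (h.symm) (by apply eo; abel_nf; try simp only [ch2, ch3, ch4, ch5, ch6, add_zero, zero_add]) (by apply eo; abel_nf; try simp only [ch2, ch3, ch4, ch5, ch6, add_zero, zero_add])⟩
    · exact ⟨0, v, C.zero _, R.uv, by exact cof (h.symm) (by apply eo; abel_nf; try simp only [ch2, ch3, ch4, ch5, ch6, add_zero, zero_add]) (by apply eo; abel_nf; try simp only [ch2, ch3, ch4, ch5, ch6, add_zero, zero_add])⟩
    · exact ⟨v, v, R.uv, R.uv, by exact cof (h.symm) (by apply eo; abel_nf; try simp only [ch2, ch3, ch4, ch5, ch6, add_zero, zero_add]) (by apply eo; abel_nf; try simp only [ch2, ch3, ch4, ch5, ch6, add_zero, zero_add])⟩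

/-- (C) comparison of `V_x` and `V_{x+v}` -/
theorem comp (x : V) :
    (∀ c, C S (x + v) c → C S v c ∨ C S v (c + x)) ∨
    (∀ c, C S x c → C S v c ∨ C S v (c + x + v)) := by
  by_contra hcon
  push Not at hcon
  obtain ⟨⟨c, hc, hc1, hc2⟩, ⟨d, hd, hd1, hd2⟩⟩ := hcon
  have t1 : ETC.tri S (v + S.e) x c = 0 := R.tri_iff'.2 (Or.inr (Or.inr (Or.inl hc)))
  have t2 : ETC.tri S (v + S.e) x d = 0 := R.tri_iff'.2 (Or.inl hd)
  have t3 := tri_addz t1 t2
  -- `c ∉ V_x ∪ (v + V_x)`
  have k1 : ¬ C S x c := fun h => hc1 (by exact cof ((hc.symm.add h.symm).symm) (by apply eo; abel_nf; try simp only [ch2, ch3, ch4, ch5, ch6, add_zero, zero_add]) (by apply eo; abel_nf; try simp only [ch2, ch3, ch4, ch5, ch6, add_zero, zero_add]))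
  have k2 : ¬ C S x (c + v) := by
    intro h
    apply hc2
    -- q x c = q x v, q x c = q v c
    have e1 : S.q x c = S.q x v := q_eq_iff.2 h
    have e2 : S.q x c = S.q v c := q_eq'_iff.2 hc
    have e3 : S.q v c = S.q v x := by rw [← e2, e1, S.symm]
    exact q_eq_iff.1 e3
  have k3 : ¬ C S (x + v) d := fun h => hd1 (by exact cof ((h.symm.add hd.symm).symm) (by apply eo; abel_nf; try simp only [ch2, ch3, ch4, ch5, ch6, add_zero, zero_add]) (by apply eo; abel_nf; try simp only [ch2, ch3, ch4, ch5, ch6, add_zero, zero_add]))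
  have k4 : ¬ C S (x + v) (d + v) := by
    intro h
    apply hd2
    have e1 : S.q x (d + v) = S.q v (d + v) := q_eq'_iff.2 h
    have e2 : S.q x (d + v) = S.q x v := q_eq_iff.2 (by exact cof (hd) (by apply eo; abel_nf; try simp only [ch2, ch3, ch4, ch5, ch6, add_zero, zero_add]) (by apply eo; abel_nf; try simp only [ch2, ch3, ch4, ch5, ch6, add_zero, zero_add]))
    have e3 : S.q v (d + v) = S.q v x := by rw [← e1, e2, S.symm]
    exact cof (q_eq_iff.1 e3) (by apply eo; abel_nf; try simp only [ch2, ch3, ch4, ch5, ch6, add_zero, zero_add]) (by apply eo; abel_nf; try simp only [ch2, ch3, ch4, ch5, ch6, add_zero, zero_add])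
  rcases R.tri_iff'.1 t3 with h | h | h | h
  · exact k1 (by exact cof (h.add hd) (by apply eo; abel_nf; try simp only [ch2, ch3, ch4, ch5, ch6, add_zero, zero_add]) (by apply eo; abel_nf; try simp only [ch2, ch3, ch4, ch5, ch6, add_zero, zero_add]))
  · exact k2 (by exact cof (h.add hd) (by apply eo; abel_nf; try simp only [ch2, ch3, ch4, ch5, ch6, add_zero, zero_add]) (by apply eo; abel_nf; try simp only [ch2, ch3, ch4, ch5, ch6, add_zero, zero_add]))
  · exact k3 (by exact cof (h.add hc) (by apply eo; abel_nf; try simp only [ch2, ch3, ch4, ch5, ch6, add_zero, zero_add]) (by apply eo; abel_nf; try simp only [ch2, ch3, ch4, ch5, ch6, add_zero, zero_add]))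
  · exact k4 (by exact cof (h.add hc) (by apply eo; abel_nf; try simp only [ch2, ch3, ch4, ch5, ch6, add_zero, zero_add]) (by apply eo; abel_nf; try simp only [ch2, ch3, ch4, ch5, ch6, add_zero, zero_add]))

/-- (A2*) -/
theorem atwo {a z w : V} (h1 : C S a v) (h2 : C S a z) (h3 : C S (v + S.e + a) w) :
    C S w v ∨ C S v z ∨ C S v (z + S.e) ∨ C S v (w + S.e) := by
  have e1 : S.q (v + S.e) w = S.q a w := q_eq'_iff.2 h3
  have e2 : S.q a w = S.q (w + z) a := by
    rw [S.symm (w + z) a]
    exact q_eq_iff.2 (by exact cof (h2) (by apply eo; abel_nf; try simp only [ch2, ch3, ch4, ch5, ch6, add_zero, zero_add]) (by apply eo; abel_nf; try simp only [ch2, ch3, ch4, ch5, ch6, add_zero, zero_add]))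
  have e3 : S.q a w = S.q (w + v + z) a := by
    rw [S.symm (w + v + z) a]
    exact q_eq_iff.2 (by exact cof (h1.add h2) (by apply eo; abel_nf; try simp only [ch2, ch3, ch4, ch5, ch6, add_zero, zero_add]) (by apply eo; abel_nf; try simp only [ch2, ch3, ch4, ch5, ch6, add_zero, zero_add]))
  have s1 := R.slot (e1.trans e2)
  have s2 := R.slot (e1.trans e3)
  have dw : C S (w + S.e) w := C.diag' w
  have dvw : C S (w + v + S.e) (w + v) := C.diag' (w + v)
  -- s1 : q(w+z+v+e, w) or q(w+z+v+e, w+v)
  have s1' : C S (z + v) w ∨ C S z (w + v) := by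
    rcases s1 with h | h
    · left; exact cof (h.add' dw) (by apply eo; abel_nf; try simp only [ch2, ch3, ch4, ch5, ch6, add_zero, zero_add]) (by apply eo; abel_nf; try simp only [ch2, ch3, ch4, ch5, ch6, add_zero, zero_add])
    · right; exact cof (h.add' dvw) (by apply eo; abel_nf; try simp only [ch2, ch3, ch4, ch5, ch6, add_zero, zero_add]) (by apply eo; abel_nf; try simp only [ch2, ch3, ch4, ch5, ch6, add_zero, zero_add])
  have s2' : C S z w ∨ C S (z + v) (w + v) := by
    rcases s2 with h | h
    · left; exact cof (h.add' dw) (by apply eo; abel_nf; try simp only [ch2, ch3, ch4, ch5, ch6, add_zero, zero_add]) (by apply eo; abel_nf; try simp only [ch2, ch3, ch4, ch5, ch6, add_zero, zero_add])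
    · right
      exact cof (h.add' dvw) (by apply eo; abel_nf; try simp only [ch2, ch3, ch4, ch5, ch6, add_zero, zero_add]) (by apply eo; abel_nf; try simp only [ch2, ch3, ch4, ch5, ch6, add_zero, zero_add])
  rcases s1' with a1 | a1 <;> rcases s2' with a2 | a2
  · left; exact cof ((a1.add' a2).symm) (by apply eo; abel_nf; try simp only [ch2, ch3, ch4, ch5, ch6, add_zero, zero_add]) (by apply eo; abel_nf; try simp only [ch2, ch3, ch4, ch5, ch6, add_zero, zero_add])
  · right; right; left
    have : C S (z + v) v := by exact cof (a1.add a2) (by apply eo; abel_nf; try simp only [ch2, ch3, ch4, ch5, ch6, add_zero, zero_add]) (by apply eo; abel_nf; try simp only [ch2, ch3, ch4, ch5, ch6, add_zero, zero_add])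
    exact cof (this.symm.add (C.diag v)) (by apply eo; abel_nf; try simp only [ch2, ch3, ch4, ch5, ch6, add_zero, zero_add]) (by apply eo; abel_nf; try simp only [ch2, ch3, ch4, ch5, ch6, add_zero, zero_add])
  · right; left
    exact cof ((a1.add a2).symm) (by apply eo; abel_nf; try simp only [ch2, ch3, ch4, ch5, ch6, add_zero, zero_add]) (by apply eo; abel_nf; try simp only [ch2, ch3, ch4, ch5, ch6, add_zero, zero_add])
  · right; right; right
    have : C S v (w + v) := by exact cof (a1.add' a2) (by apply eo; abel_nf; try simp only [ch2, ch3, ch4, ch5, ch6, add_zero, zero_add]) (by apply eo; abel_nf; try simp only [ch2, ch3, ch4, ch5, ch6, add_zero, zero_add])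
    exact cof (this.add (C.diag v)) (by apply eo; abel_nf; try simp only [ch2, ch3, ch4, ch5, ch6, add_zero, zero_add]) (by apply eo; abel_nf; try simp only [ch2, ch3, ch4, ch5, ch6, add_zero, zero_add])

end Rg

/-- torsion-free elements: `{e, a, c} = 0` implies `q (a, c) = 0` -/
def TF (S : QData V Q) (a : V) : Prop := ∀ c, ETC.tri S S.e a c = 0 → C S a c

theorem TF.sub {a : V} (h : TF S a) {s c : V} (hs : C S a s) (hc : C S (s + S.e) c) : C S a c := by
  apply h
  have e1 : S.q (s + S.e) a = S.q S.e a := q_eq'_iff.2 (by exact cof (hs.symm) (by apply eo; abel_nf; try simp only [ch2, ch3, ch4, ch5, ch6, add_zero, zero_add]) (by apply eo; abel_nf; try simp only [ch2, ch3, ch4, ch5, ch6, add_zero, zero_add]))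
  exact tri_congr_q e1 (tri_of_slot hc rfl)

theorem TF.sub' {a f c : V} (h : TF S a) (hf : C S a f) (hc : C S (a + f) c) : C S a c := by
  apply h.sub (s := a + f + S.e)
  · exact cof (hf.add (C.diag a)) (by apply eo; abel_nf; try simp only [ch2, ch3, ch4, ch5, ch6, add_zero, zero_add]) (by apply eo; abel_nf; try simp only [ch2, ch3, ch4, ch5, ch6, add_zero, zero_add])
  · exact cof (hc) (by apply eo; abel_nf; try simp only [ch2, ch3, ch4, ch5, ch6, add_zero, zero_add]) (by apply eo; abel_nf; try simp only [ch2, ch3, ch4, ch5, ch6, add_zero, zero_add])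

theorem TF.zero : TF S (0 : V) := fun c _ => C.zero' c

end Pool.Agent.ETCG
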