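import Pool.Agent.ETCG.Basic

/-!
# Pairs of noncommuting rigid elements (helper13)
-/

set_option autoImplicit false
set_option linter.unusedSimpArgs false
set_option linter.unusedVariables false
set_option linter.unusedSectionVars false
set_option linter.unnecessarySeqFocus false

namespace Pool.Agent.ETCG

open Pool.Agent.Helper58.PLine (QData)
open Pool.Agent.ETCP

variable {V Q : Type} [AddCommGroup V] [Module (ZMod 2) V] {S : QData V Q}

/-- associativity of `D<1, b, z>` -/
theorem assoc3 {b z d x : V} (h1 : C S (b + S.e) d) (h2 : C S (d + z + S.e) (d + x)) :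
    ∃ u, C S (z + S.e) u ∧ C S (u + b + S.e) (u + x) := by
  have d1 : ETC.Dm S [0, b] d := ETC.dm_pair.2 (by
    rw [ETC.mem_NN']
    exact cof h1 (by apply eo; abel_nf; try simp only [ch2, ch3, ch4, ch5, ch6, add_zero, zero_add]) (by apply eo; abel_nf; try simp only [ch2, ch3, ch4, ch5, ch6, add_zero, zero_add]))
  have d2 : ETC.Dm S [d, z] x := ETC.dm_pair.2 (by
    rw [ETC.mem_NN']
    exact cof h2 (by apply eo; abel_nf; try simp only [ch2, ch3, ch4, ch5, ch6, add_zero, zero_add]) (by apply eo; abel_nf; try simp only [ch2, ch3, ch4, ch5, ch6, add_zero, zero_add]))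
  obtain ⟨g, hg⟩ := d1
  obtain ⟨g', hg'⟩ := d2
  have i1 : ETC.Isom S ([0, z] ++ [b]) (x :: (g' ++ g)) := by
    have p1 : ETC.Isom S ([0, z] ++ [b]) ([0, b] ++ [z]) := by
      apply ETC.Isom.cons
      exact ETC.Isom.swap z b []
    have p2 : ETC.Isom S ([0, b] ++ [z]) ((d :: g) ++ [z]) := hg.append_right [z]
    have p3 : ETC.Isom S ((d :: g) ++ [z]) ([d, z] ++ g) := by
      apply ETC.Isom.cons
      exact ETC.Isom.of_perm List.perm_append_comm
    exact p1.trans (p2.trans (p3.trans (hg'.append_right g)))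
  obtain ⟨u, w, h3, h4, h5⟩ := ETC.dm_append ⟨_, i1⟩ (by simp) (by simp)
  have h4' : w = b := ETC.dm_single.1 h4
  subst h4'
  have h3' := ETC.dm_pair.1 h3
  have h5' := ETC.dm_pair.1 h5
  rw [ETC.mem_NN'] at h3' h5'
  exact ⟨u, cof h3' (by apply eo; abel_nf; try simp only [ch2, ch3, ch4, ch5, ch6, add_zero, zero_add]) (by apply eo; abel_nf; try simp only [ch2, ch3, ch4, ch5, ch6, add_zero, zero_add]), cof h5' (by apply eo; abel_nf; try simp only [ch2, ch3, ch4, ch5, ch6, add_zero, zero_add]) (by apply eo; abel_nf; try simp only [ch2, ch3, ch4, ch5, ch6, add_zero, zero_add])⟩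

/-- Lemma G -/
theorem Rg.fam {z v : V} (Rz : Rg S z) (Rv : Rg S v) (hzv : ¬ C S z v) {d : V}
    (hd : C S (z + v + S.e) d) : Rg S (z + d) := by
  have hz : ¬ C S (z + v + S.e) z := by
    intro h
    apply hzv
    exact cof ((h.symm.add (C.diag z))) (by apply eo; abel_nf; try simp only [ch2, ch3, ch4, ch5, ch6, add_zero, zero_add]) (by apply eo; abel_nf; try simp only [ch2, ch3, ch4, ch5, ch6, add_zero, zero_add])
  -- `c ∈ P_{d+z}` implies `c ∈ P_b` or `c = d + z`
  have key : ∀ c, C S (z + d + S.e) c → C S (z + v + S.e) c ∨ c = z + d := by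
    intro c hc
    obtain ⟨u, hu1, hu2⟩ := assoc3 (S := S) (b := z + v) (z := z) (d := d) (x := d + c)
      (by exact cof (hd) (by apply eo; abel_nf; try simp only [ch2, ch3, ch4, ch5, ch6, add_zero, zero_add]) (by apply eo; abel_nf; try simp only [ch2, ch3, ch4, ch5, ch6, add_zero, zero_add])) (by exact cof (hc) (by apply eo; abel_nf; try simp only [ch2, ch3, ch4, ch5, ch6, add_zero, zero_add]) (by apply eo; abel_nf; try simp only [ch2, ch3, ch4, ch5, ch6, add_zero, zero_add]))
    rcases Rz.rig _ (by exact cof (hu1) (by apply eo; abel_nf; try simp only [ch2, ch3, ch4, ch5, ch6, add_zero, zero_add]) (by apply eo; abel_nf; try simp only [ch2, ch3, ch4, ch5, ch6, add_zero, zero_add])) with rfl | rfl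
    · left
      have : C S (z + v + S.e) (d + c) := by exact cof (hu2) (by apply eo; abel_nf; try simp only [ch2, ch3, ch4, ch5, ch6, add_zero, zero_add]) (by apply eo; abel_nf; try simp only [ch2, ch3, ch4, ch5, ch6, add_zero, zero_add])
      exact cof (this.add hd) (by apply eo; abel_nf; try simp only [ch2, ch3, ch4, ch5, ch6, add_zero, zero_add]) (by apply eo; abel_nf; try simp only [ch2, ch3, ch4, ch5, ch6, add_zero, zero_add])
    · have h3 : C S (v + S.e) (u + d + c) := by exact cof (hu2) (by apply eo; abel_nf; try simp only [ch2, ch3, ch4, ch5, ch6, add_zero, zero_add]) (by apply eo; abel_nf; try simp only [ch2, ch3, ch4, ch5, ch6, add_zero, zero_add])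
      rcases Rv.rig _ h3 with h4 | h4
      · right
        have := eo h4
        rw [← this]
      · left
        have : c = u + d + v := by
          have : (u + d) + (u + d + c) = (u + d) + v := by rw [h4]
          rw [← this]; (apply eo; abel_nf; try simp only [ch2, ch3, ch4, ch5, ch6, add_zero, zero_add])
        rw [this]
        exact cof ((hd.add (C.diag' (u + v)))) (by apply eo; abel_nf; try simp only [ch2, ch3, ch4, ch5, ch6, add_zero, zero_add]) (by apply eo; abel_nf; try simp only [ch2, ch3, ch4, ch5, ch6, add_zero, zero_add])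
  refine ⟨?_, ?_, ?_⟩
  · intro h
    apply hz
    have : z = d := eo h
    rw [this]; rw [this] at hd; exact hd
  · intro h
    -- `d = z + e`, `q (z + e, v) = 0`
    have hd' : d = z + S.e := by
      have : z + (z + d) = z + S.e := by rw [h]
      rw [← this]; (apply eo; abel_nf; try simp only [ch2, ch3, ch4, ch5, ch6, add_zero, zero_add])
    rw [hd'] at hd
    have h1 : C S (v + S.e) (z + S.e) := by exact cof (hd.add' (C.diag z)) (by apply eo; abel_nf; try simp only [ch2, ch3, ch4, ch5, ch6, add_zero, zero_add]) (by apply eo; abel_nf; try simp only [ch2, ch3, ch4, ch5, ch6, add_zero, zero_add])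
    rcases Rv.rig _ h1 with h2 | h2
    · exact Rz.nee (eo h2)
    · apply hzv
      rw [← h2]
      exact C.diag z
  · intro y hy
    by_contra hcon
    push Not at hcon
    obtain ⟨hy0, hyd⟩ := hcon
    rcases key y hy with h1 | h1
    · have hy' : C S (z + d + S.e) (y + (z + d)) := hy.add (C.diag' (z + d))
      rcases key _ hy' with h2 | h2
      · apply hz
        have h3 := (h1.add h2).add hd
        exact cof (h3) (by apply eo; abel_nf; try simp only [ch2, ch3, ch4, ch5, ch6, add_zero, zero_add]) (by apply eo; abel_nf; try simp only [ch2, ch3, ch4, ch5, ch6, add_zero, zero_add])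
      · apply hy0
        have : y + (z + d) + (z + d) = (z + d) + (z + d) := by rw [h2]
        have h5 : y = (z + d) + (z + d) := by rw [← this]; (apply eo; abel_nf; try simp only [ch2, ch3, ch4, ch5, ch6, add_zero, zero_add])
        rw [h5]; (apply eo; abel_nf; try simp only [ch2, ch3, ch4, ch5, ch6, add_zero, zero_add])
    · exact hyd h1

/-- `V_z ≤ V_v + <z + e>` -/
def Mn (S : QData V Q) (z v : V) : Prop := ∀ c, C S z c → C S v c ∨ C S v (c + z + S.e)

theorem nze {z v d : V} (hd : C S (z + v + S.e) d) (h : C S z (d + S.e)) :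
    ∃ h, C S S.e h ∧ C S (z + h) v := by
  have e1 : S.q v d = S.q (z + S.e) d := q_eq'_iff.2 (by exact cof (hd) (by apply eo; abel_nf; try simp only [ch2, ch3, ch4, ch5, ch6, add_zero, zero_add]) (by apply eo; abel_nf; try simp only [ch2, ch3, ch4, ch5, ch6, add_zero, zero_add]))
  have e2 : S.q (z + S.e) d = S.q (z + d) d := q_eq'_iff.2 (by exact cof ((C.diag' d)) (by apply eo; abel_nf; try simp only [ch2, ch3, ch4, ch5, ch6, add_zero, zero_add]) (by apply eo; abel_nf; try simp only [ch2, ch3, ch4, ch5, ch6, add_zero, zero_add]))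
  have h1 : C S (z + d) z := by exact cof ((h.add (C.diag z)).symm) (by apply eo; abel_nf; try simp only [ch2, ch3, ch4, ch5, ch6, add_zero, zero_add]) (by apply eo; abel_nf; try simp only [ch2, ch3, ch4, ch5, ch6, add_zero, zero_add])
  have e3 : S.q (z + d) d = S.q (z + d) S.e := q_eq_iff.2 (by exact cof (h1.add (C.diag (z + d))) (by apply eo; abel_nf; try simp only [ch2, ch3, ch4, ch5, ch6, add_zero, zero_add]) (by apply eo; abel_nf; try simp only [ch2, ch3, ch4, ch5, ch6, add_zero, zero_add]))
  have e4 : S.q v d = S.q S.e (z + d) := by rw [e1, e2, e3, S.symm]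
  obtain ⟨t, h2, h3, h4⟩ := link e4
  exact ⟨z + d + t, h3, by exact cof (h2.symm) (by apply eo; abel_nf; try simp only [ch2, ch3, ch4, ch5, ch6, add_zero, zero_add]) (by apply eo; abel_nf; try simp only [ch2, ch3, ch4, ch5, ch6, add_zero, zero_add])⟩

/-- Lemma F -/
theorem Rg.lemF {z v : V} (Rz : Rg S z) (Rv : Rg S v) (hne : z ≠ v) (hzv : ¬ C S z v)
    (hH : ∀ h, C S S.e h → ¬ C S (z + h) v) : Mn S z v ∨ Mn S v z := by
  by_cases hA : Mn S z v
  · exact Or.inl hA
  right
  have nde : ∀ d, C S (z + v + S.e) d → ¬ C S z (d + S.e) := by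
    intro d hd h
    obtain ⟨h0, h1, h2⟩ := nze hd h
    exact hH h0 h1 h2
  have nd : ∀ d, C S (z + v + S.e) d → d ≠ 0 → ¬ C S z d := by
    intro d hd h0 h
    have h1 : C S (v + S.e) d := by exact cof (h.add' hd) (by apply eo; abel_nf; try simp only [ch2, ch3, ch4, ch5, ch6, add_zero, zero_add]) (by apply eo; abel_nf; try simp only [ch2, ch3, ch4, ch5, ch6, add_zero, zero_add])
    rcases Rv.rig _ h1 with h2 | h2
    · exact h0 h2
    · exact hzv (h2 ▸ h)
  have claim : ∀ d, C S (z + v + S.e) d → d = 0 ∨ d = z + v := by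
    intro d hd
    by_contra hcon
    push Not at hcon
    obtain ⟨hd0, hd1⟩ := hcon
    have Kd : ∀ d, C S (z + v + S.e) d → d ≠ 0 → d ≠ z + v →
        ∀ c, C S z c → C S d c ∨ C S d (c + z + S.e) := by
      intro d hd hd0 hd1
      have R2 := Rz.fam Rv hzv hd
      have hd' : C S (z + v + S.e) (z + v + d) := by exact cof (hd.add (C.diag' (z + v))) (by apply eo; abel_nf; try simp only [ch2, ch3, ch4, ch5, ch6, add_zero, zero_add]) (by apply eo; abel_nf; try simp only [ch2, ch3, ch4, ch5, ch6, add_zero, zero_add])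
      have hd'0 : z + v + d ≠ 0 := fun h => hd1 (eo h).symm
      have dd : C S d (z + v + d) := by exact cof (hd.symm.add (C.diag d)) (by apply eo; abel_nf; try simp only [ch2, ch3, ch4, ch5, ch6, add_zero, zero_add]) (by apply eo; abel_nf; try simp only [ch2, ch3, ch4, ch5, ch6, add_zero, zero_add])
      rcases R2.comp z with h | h
      · exfalso
        rcases h (z + v + d) (by exact cof (dd) (by apply eo; abel_nf; try simp only [ch2, ch3, ch4, ch5, ch6, add_zero, zero_add]) (by apply eo; abel_nf; try simp only [ch2, ch3, ch4, ch5, ch6, add_zero, zero_add])) with h1 | h1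
        · exact nd _ hd' hd'0 (by exact cof (h1.add' dd) (by apply eo; abel_nf; try simp only [ch2, ch3, ch4, ch5, ch6, add_zero, zero_add]) (by apply eo; abel_nf; try simp only [ch2, ch3, ch4, ch5, ch6, add_zero, zero_add]))
        · apply hzv
          have h2 : C S (z + d) (z + v + S.e) := by exact cof (h1.add (C.diag (z + d))) (by apply eo; abel_nf; try simp only [ch2, ch3, ch4, ch5, ch6, add_zero, zero_add]) (by apply eo; abel_nf; try simp only [ch2, ch3, ch4, ch5, ch6, add_zero, zero_add])
          have h3 : C S z (z + v + S.e) := by exact cof (h2.add' hd.symm) (by apply eo; abel_nf; try simp only [ch2, ch3, ch4, ch5, ch6, add_zero, zero_add]) (by apply eo; abel_nf; try simp only [ch2, ch3, ch4, ch5, ch6, add_zero, zero_add])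
          exact cof (h3.add (C.diag z)) (by apply eo; abel_nf; try simp only [ch2, ch3, ch4, ch5, ch6, add_zero, zero_add]) (by apply eo; abel_nf; try simp only [ch2, ch3, ch4, ch5, ch6, add_zero, zero_add])
      · intro c hc
        rcases h c hc with h1 | h1
        · left; exact cof (h1.add' hc) (by apply eo; abel_nf; try simp only [ch2, ch3, ch4, ch5, ch6, add_zero, zero_add]) (by apply eo; abel_nf; try simp only [ch2, ch3, ch4, ch5, ch6, add_zero, zero_add])
        · right
          have h2 : C S (z + d) (c + z + S.e) := by exact cof (h1.add (C.diag (z + d))) (by apply eo; abel_nf; try simp only [ch2, ch3, ch4, ch5, ch6, add_zero, zero_add]) (by apply eo; abel_nf; try simp only [ch2, ch3, ch4, ch5, ch6, add_zero, zero_add])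
          have h3 : C S z (c + z + S.e) := by exact cof (hc.add (C.diag z)) (by apply eo; abel_nf; try simp only [ch2, ch3, ch4, ch5, ch6, add_zero, zero_add]) (by apply eo; abel_nf; try simp only [ch2, ch3, ch4, ch5, ch6, add_zero, zero_add])
          exact cof (h2.add' h3) (by apply eo; abel_nf; try simp only [ch2, ch3, ch4, ch5, ch6, add_zero, zero_add]) (by apply eo; abel_nf; try simp only [ch2, ch3, ch4, ch5, ch6, add_zero, zero_add])
    have hd' : C S (z + v + S.e) (z + v + d) := by exact cof (hd.add (C.diag' (z + v))) (by apply eo; abel_nf; try simp only [ch2, ch3, ch4, ch5, ch6, add_zero, zero_add]) (by apply eo; abel_nf; try simp only [ch2, ch3, ch4, ch5, ch6, add_zero, zero_add])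
    have hd'0 : z + v + d ≠ 0 := fun h => hd1 (eo h).symm
    have hd'1 : z + v + d ≠ z + v := by
      intro h
      apply hd0
      have : (z + v) + (z + v + d) = (z + v) + (z + v) := by rw [h]
      have h5 : d = (z + v) + (z + v) := by rw [← this]; (apply eo; abel_nf; try simp only [ch2, ch3, ch4, ch5, ch6, add_zero, zero_add])
      rw [h5]; (apply eo; abel_nf; try simp only [ch2, ch3, ch4, ch5, ch6, add_zero, zero_add])
    apply hA
    intro c hc
    have mix : ∀ d, C S (z + v + S.e) d → d ≠ 0 → C S (z + v + S.e) (z + v + d) →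
        z + v + d ≠ 0 → C S d c → C S (z + v + d) (c + z + S.e) → False := by
      intro d k1 k2 k3 k4 k5 k6
      rcases Rz.atwo (a := c) (z := d) (w := z + v + d) hc.symm k5.symm (by exact cof (k6.symm) (by apply eo; abel_nf; try simp only [ch2, ch3, ch4, ch5, ch6, add_zero, zero_add]) (by apply eo; abel_nf; try simp only [ch2, ch3, ch4, ch5, ch6, add_zero, zero_add]))
        with h | h | h | h
      · exact nd _ k3 k4 h.symm
      · exact nd _ k1 k2 h
      · exact nde _ k1 h
      · exact nde _ k3 h
    rcases Kd d hd hd0 hd1 c hc with h1 | h1 <;> rcases Kd _ hd' hd'0 hd'1 c hc with h2 | h2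
    · left; exact cof ((h1.add' h2).add' hc) (by apply eo; abel_nf; try simp only [ch2, ch3, ch4, ch5, ch6, add_zero, zero_add]) (by apply eo; abel_nf; try simp only [ch2, ch3, ch4, ch5, ch6, add_zero, zero_add])
    · exact (mix d hd hd0 hd' hd'0 h1 h2).elim
    · exact (mix _ hd' hd'0 (by exact cof (hd) (by apply eo; abel_nf; try simp only [ch2, ch3, ch4, ch5, ch6, add_zero, zero_add]) (by apply eo; abel_nf; try simp only [ch2, ch3, ch4, ch5, ch6, add_zero, zero_add])) (by intro h; apply hd0; rw [← h]; (apply eo; abel_nf; try simp only [ch2, ch3, ch4, ch5, ch6, add_zero, zero_add])) h2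
        (by exact cof (h1) (by apply eo; abel_nf; try simp only [ch2, ch3, ch4, ch5, ch6, add_zero, zero_add]) (by apply eo; abel_nf; try simp only [ch2, ch3, ch4, ch5, ch6, add_zero, zero_add]))).elim
    · right
      have h3 : C S z (c + z + S.e) := by exact cof (hc.add (C.diag z)) (by apply eo; abel_nf; try simp only [ch2, ch3, ch4, ch5, ch6, add_zero, zero_add]) (by apply eo; abel_nf; try simp only [ch2, ch3, ch4, ch5, ch6, add_zero, zero_add])
      exact cof ((h1.add' h2).add' h3) (by apply eo; abel_nf; try simp only [ch2, ch3, ch4, ch5, ch6, add_zero, zero_add]) (by apply eo; abel_nf; try simp only [ch2, ch3, ch4, ch5, ch6, add_zero, zero_add])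
  have Rs : Rg S (z + v) := by
    refine ⟨fun h => hne (eo h), ?_, claim⟩
    intro h
    apply hzv
    have : v = z + S.e := by rw [← h]; (apply eo; abel_nf; try simp only [ch2, ch3, ch4, ch5, ch6, add_zero, zero_add])
    rw [this]; exact C.diag z
  rcases Rs.comp v with h | h
  · exfalso
    apply hA
    intro c hc
    rcases h c (by exact cof (hc) (by apply eo; abel_nf; try simp only [ch2, ch3, ch4, ch5, ch6, add_zero, zero_add]) (by apply eo; abel_nf; try simp only [ch2, ch3, ch4, ch5, ch6, add_zero, zero_add])) with h1 | h1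
    · left; exact cof (h1.add' hc) (by apply eo; abel_nf; try simp only [ch2, ch3, ch4, ch5, ch6, add_zero, zero_add]) (by apply eo; abel_nf; try simp only [ch2, ch3, ch4, ch5, ch6, add_zero, zero_add])
    · right
      have h2 : C S (z + v) (c + z + S.e) := by exact cof (h1.add (C.diag (z + v))) (by apply eo; abel_nf; try simp only [ch2, ch3, ch4, ch5, ch6, add_zero, zero_add]) (by apply eo; abel_nf; try simp only [ch2, ch3, ch4, ch5, ch6, add_zero, zero_add])
      have h3 : C S z (c + z + S.e) := by exact cof (hc.add (C.diag z)) (by apply eo; abel_nf; try simp only [ch2, ch3, ch4, ch5, ch6, add_zero, zero_add]) (by apply eo; abel_nf; try simp only [ch2, ch3, ch4, ch5, ch6, add_zero, zero_add])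
      exact cof (h2.add' h3) (by apply eo; abel_nf; try simp only [ch2, ch3, ch4, ch5, ch6, add_zero, zero_add]) (by apply eo; abel_nf; try simp only [ch2, ch3, ch4, ch5, ch6, add_zero, zero_add])
  · intro c hc
    rcases h c hc with h1 | h1
    · left; exact cof (h1.add' hc) (by apply eo; abel_nf; try simp only [ch2, ch3, ch4, ch5, ch6, add_zero, zero_add]) (by apply eo; abel_nf; try simp only [ch2, ch3, ch4, ch5, ch6, add_zero, zero_add])
    · right
      have h2 : C S (z + v) (c + v + S.e) := by exact cof (h1.add (C.diag (z + v))) (by apply eo; abel_nf; try simp only [ch2, ch3, ch4, ch5, ch6, add_zero, zero_add]) (by apply eo; abel_nf; try simp only [ch2, ch3, ch4, ch5, ch6, add_zero, zero_add])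
      have h3 : C S v (c + v + S.e) := by exact cof (hc.add (C.diag v)) (by apply eo; abel_nf; try simp only [ch2, ch3, ch4, ch5, ch6, add_zero, zero_add]) (by apply eo; abel_nf; try simp only [ch2, ch3, ch4, ch5, ch6, add_zero, zero_add])
      exact cof (h2.add' h3) (by apply eo; abel_nf; try simp only [ch2, ch3, ch4, ch5, ch6, add_zero, zero_add]) (by apply eo; abel_nf; try simp only [ch2, ch3, ch4, ch5, ch6, add_zero, zero_add])

/-- a direct product decomposition -/
def Dec (S : QData V Q) : Prop := ∃ A B : Submodule (ZMod 2) V, A ≠ ⊥ ∧ B ≠ ⊥ ∧ IsCompl A B ∧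
  (∀ a ∈ A, ∀ b ∈ B, C S a b) ∧ (∀ a ∈ A, ∀ b ∈ B, ∀ c, C S (a + b) c → C S a c)

theorem exists_triv [Finite V] (P : Submodule (ZMod 2) V) (hP : ∀ n ∈ P, TF S n)
    (hPH : ∀ c ∈ P, C S S.e c → c = 0) : ∃ n ∈ P, ∀ c ∈ P, C S n c → c = 0 := by
  obtain ⟨n, hn, hmin⟩ := Set.exists_min_image (P : Set V)
    (fun n => Nat.card (S.ann n ⊓ P : Submodule (ZMod 2) V)) (Set.toFinite _) ⟨0, P.zero_mem⟩
  refine ⟨n, hn, fun c hc hnc => ?_⟩
  by_contra hc0
  have h1 := hmin (n + c) (P.add_mem hn hc)
  have h2 : (S.ann (n + c) ⊓ P : Submodule (ZMod 2) V) < S.ann n ⊓ P := by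
    refine lt_of_le_of_ne ?_ ?_
    · intro y hy
      exact ⟨(hP n hn).sub' hnc hy.1, hy.2⟩
    · intro h
      have h3 : c ∈ (S.ann n ⊓ P : Submodule (ZMod 2) V) := ⟨hnc, hc⟩
      rw [← h] at h3
      have h4 : C S (n + c) c := h3.1
      have h5 : C S c c := by exact cof (h4.add' hnc) (by apply eo; abel_nf; try simp only [ch2, ch3, ch4, ch5, ch6, add_zero, zero_add]) (by apply eo; abel_nf; try simp only [ch2, ch3, ch4, ch5, ch6, add_zero, zero_add])
      exact hc0 (hPH c hc (by exact cof ((h5.add (C.diag c)).symm) (by apply eo; abel_nf; try simp only [ch2, ch3, ch4, ch5, ch6, add_zero, zero_add]) (by apply eo; abel_nf; try simp only [ch2, ch3, ch4, ch5, ch6, add_zero, zero_add])))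
  have h3 := Set.ncard_lt_ncard (s := ((S.ann (n + c) ⊓ P : Submodule (ZMod 2) V) : Set V))
    (t := ((S.ann n ⊓ P : Submodule (ZMod 2) V) : Set V)) h2 (Set.toFinite _)
  have e1 : ∀ M : Submodule (ZMod 2) V, (M : Set V).ncard = Nat.card M := fun M => rfl
  rw [e1, e1] at h3
  exact absurd h3 (not_lt.2 h1)

theorem small_rig {n x : V} {P : Submodule (ZMod 2) V} (hn : TF S n) (hnx : C S n x) (hnP : n ∈ P)
    (hx : ∀ c, C S x c → c ∈ P ∨ c + x + S.e ∈ P) (h0 : ∀ c ∈ P, C S x c → C S n c → c = 0) :
    ∀ c, C S (x + n) c → c = 0 ∨ c = x + n + S.e := by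
  intro c hc
  have h1 : C S n c := hn.sub' hnx (by exact cof (hc) (by apply eo; abel_nf; try simp only [ch2, ch3, ch4, ch5, ch6, add_zero, zero_add]) (by apply eo; abel_nf; try simp only [ch2, ch3, ch4, ch5, ch6, add_zero, zero_add]))
  have h2 : C S x c := by exact cof (hc.add' h1) (by apply eo; abel_nf; try simp only [ch2, ch3, ch4, ch5, ch6, add_zero, zero_add]) (by apply eo; abel_nf; try simp only [ch2, ch3, ch4, ch5, ch6, add_zero, zero_add])
  rcases hx c h2 with h3 | h3
  · left; exact h0 c h3 h2 h1
  · right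
    have h4 : c + x + S.e + n ∈ P := P.add_mem h3 hnP
    have h5 : C S x (c + x + S.e + n) := by exact cof ((h2.add (C.diag x)).add hnx.symm) (by apply eo; abel_nf; try simp only [ch2, ch3, ch4, ch5, ch6, add_zero, zero_add]) (by apply eo; abel_nf; try simp only [ch2, ch3, ch4, ch5, ch6, add_zero, zero_add])
    have h6 : C S n (c + x + S.e + n) := by exact cof ((h1.add hnx).add (C.diag n)) (by apply eo; abel_nf; try simp only [ch2, ch3, ch4, ch5, ch6, add_zero, zero_add]) (by apply eo; abel_nf; try simp only [ch2, ch3, ch4, ch5, ch6, add_zero, zero_add])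
    have h7 := eo (h0 _ h4 h5 h6)
    rw [← h7]; (apply eo; abel_nf; try simp only [ch2, ch3, ch4, ch5, ch6, add_zero, zero_add])

end Pool.Agent.ETCG
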