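import Pool.Agent.ETCG.Main

/-!
# Structures with `|V_e| ≤ 2` (helper13)
-/

set_option autoImplicit false
set_option linter.unusedSimpArgs false
set_option linter.unusedVariables false
set_option linter.unusedSectionVars false
set_option linter.unnecessarySeqFocus false

namespace Pool.Agent.ETCG

open Pool.Agent.Helper58.PLine (QData)
open Pool.Agent.ETCP

variable {V Q : Type} [AddCommGroup V] [Module (ZMod 2) V] {S : QData V Q}

/-- `V_e = {0, h}` -/
structure Hh (S : QData V Q) (h : V) : Prop where
  mem : C S S.e h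
  two : ∀ y, C S S.e y → y = 0 ∨ y = h

namespace Hh

variable {h : V} (X : Hh S h)
include X

theorem hh : C S h h := by exact cof (X.mem.symm.add (C.diag h)) (by apply eo; abel_nf; try simp only [ch2, ch3, ch4, ch5, ch6, add_zero, zero_add]) (by apply eo; abel_nf; try simp only [ch2, ch3, ch4, ch5, ch6, add_zero, zero_add])

theorem tri_iff' {x z : V} : ETC.tri S S.e x z = 0 ↔
    C S x z ∨ C S x (z + h) ∨ C S (x + h) z ∨ C S (x + h) (z + h) := by
  rw [tri_iff]
  constructor
  · rintro ⟨a, b, ha, hb, hc⟩
    rcases X.two _ ha with rfl | rfl <;> rcases X.two _ hb with rfl | rfl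
    · left; exact cof (hc.symm) (by apply eo; abel_nf; try simp only [ch2, ch3, ch4, ch5, ch6, add_zero, zero_add]) (by apply eo; abel_nf; try simp only [ch2, ch3, ch4, ch5, ch6, add_zero, zero_add])
    · right; right; left; exact cof (hc.symm) (by apply eo; abel_nf; try simp only [ch2, ch3, ch4, ch5, ch6, add_zero, zero_add]) (by apply eo; abel_nf; try simp only [ch2, ch3, ch4, ch5, ch6, add_zero, zero_add])
    · right; left; exact cof (hc.symm) (by apply eo; abel_nf; try simp only [ch2, ch3, ch4, ch5, ch6, add_zero, zero_add]) (by apply eo; abel_nf; try simp only [ch2, ch3, ch4, ch5, ch6, add_zero, zero_add])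
    · right; right; right; exact cof (hc.symm) (by apply eo; abel_nf; try simp only [ch2, ch3, ch4, ch5, ch6, add_zero, zero_add]) (by apply eo; abel_nf; try simp only [ch2, ch3, ch4, ch5, ch6, add_zero, zero_add])
  · rintro (hc | hc | hc | hc)
    · exact ⟨0, 0, C.zero _, C.zero _, by exact cof (hc.symm) (by apply eo; abel_nf; try simp only [ch2, ch3, ch4, ch5, ch6, add_zero, zero_add]) (by apply eo; abel_nf; try simp only [ch2, ch3, ch4, ch5, ch6, add_zero, zero_add])⟩
    · exact ⟨h, 0, X.mem, C.zero _, by exact cof (hc.symm) (by apply eo; abel_nf; try simp only [ch2, ch3, ch4, ch5, ch6, add_zero, zero_add]) (by apply eo; abel_nf; try simp only [ch2, ch3, ch4, ch5, ch6, add_zero, zero_add])⟩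
    · exact ⟨0, h, C.zero _, X.mem, by exact cof (hc.symm) (by apply eo; abel_nf; try simp only [ch2, ch3, ch4, ch5, ch6, add_zero, zero_add]) (by apply eo; abel_nf; try simp only [ch2, ch3, ch4, ch5, ch6, add_zero, zero_add])⟩
    · exact ⟨h, h, X.mem, X.mem, by exact cof (hc.symm) (by apply eo; abel_nf; try simp only [ch2, ch3, ch4, ch5, ch6, add_zero, zero_add]) (by apply eo; abel_nf; try simp only [ch2, ch3, ch4, ch5, ch6, add_zero, zero_add])⟩

theorem comp (x : V) :
    (∀ c, C S (x + h) c → C S h c ∨ C S h (c + x)) ∨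
    (∀ c, C S x c → C S h c ∨ C S h (c + x + h)) := by
  by_contra hcon
  push Not at hcon
  obtain ⟨⟨c, hc, hc1, hc2⟩, ⟨d, hd, hd1, hd2⟩⟩ := hcon
  have t1 : ETC.tri S S.e x c = 0 := X.tri_iff'.2 (Or.inr (Or.inr (Or.inl hc)))
  have t2 : ETC.tri S S.e x d = 0 := X.tri_iff'.2 (Or.inl hd)
  have t3 := tri_addz t1 t2
  have k1 : ¬ C S x c := fun h => hc1 (by exact cof ((hc.symm.add h.symm).symm) (by apply eo; abel_nf; try simp only [ch2, ch3, ch4, ch5, ch6, add_zero, zero_add]) (by apply eo; abel_nf; try simp only [ch2, ch3, ch4, ch5, ch6, add_zero, zero_add]))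
  have k2 : ¬ C S x (c + h) := by
    intro h'
    apply hc2
    have e1 : S.q x c = S.q x h := q_eq_iff.2 h'
    have e2 : S.q x c = S.q h c := q_eq'_iff.2 hc
    have e3 : S.q h c = S.q h x := by rw [← e2, e1, S.symm]
    exact q_eq_iff.1 e3
  have k3 : ¬ C S (x + h) d := fun h => hd1 (by exact cof ((h.symm.add hd.symm).symm) (by apply eo; abel_nf; try simp only [ch2, ch3, ch4, ch5, ch6, add_zero, zero_add]) (by apply eo; abel_nf; try simp only [ch2, ch3, ch4, ch5, ch6, add_zero, zero_add]))
  have k4 : ¬ C S (x + h) (d + h) := by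
    intro h'
    apply hd2
    have e1 : S.q x (d + h) = S.q h (d + h) := q_eq'_iff.2 h'
    have e2 : S.q x (d + h) = S.q x h := q_eq_iff.2 (by exact cof (hd) (by apply eo; abel_nf; try simp only [ch2, ch3, ch4, ch5, ch6, add_zero, zero_add]) (by apply eo; abel_nf; try simp only [ch2, ch3, ch4, ch5, ch6, add_zero, zero_add]))
    have e3 : S.q h (d + h) = S.q h x := by rw [← e1, e2, S.symm]
    exact cof (q_eq_iff.1 e3) (by apply eo; abel_nf; try simp only [ch2, ch3, ch4, ch5, ch6, add_zero, zero_add]) (by apply eo; abel_nf; try simp only [ch2, ch3, ch4, ch5, ch6, add_zero, zero_add])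
  rcases X.tri_iff'.1 t3 with h' | h' | h' | h'
  · exact k1 (by exact cof (h'.add hd) (by apply eo; abel_nf; try simp only [ch2, ch3, ch4, ch5, ch6, add_zero, zero_add]) (by apply eo; abel_nf; try simp only [ch2, ch3, ch4, ch5, ch6, add_zero, zero_add]))
  · exact k2 (by exact cof (h'.add hd) (by apply eo; abel_nf; try simp only [ch2, ch3, ch4, ch5, ch6, add_zero, zero_add]) (by apply eo; abel_nf; try simp only [ch2, ch3, ch4, ch5, ch6, add_zero, zero_add]))
  · exact k3 (by exact cof (h'.add hc) (by apply eo; abel_nf; try simp only [ch2, ch3, ch4, ch5, ch6, add_zero, zero_add]) (by apply eo; abel_nf; try simp only [ch2, ch3, ch4, ch5, ch6, add_zero, zero_add]))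
  · exact k4 (by exact cof (h'.add hc) (by apply eo; abel_nf; try simp only [ch2, ch3, ch4, ch5, ch6, add_zero, zero_add]) (by apply eo; abel_nf; try simp only [ch2, ch3, ch4, ch5, ch6, add_zero, zero_add]))

theorem cp (x : V) : Mn S x h ∨ Mn S (x + h) h := by
  rcases X.comp x with h' | h'
  · right
    intro c hc
    rcases h' c hc with h1 | h1
    · exact Or.inl h1
    · right; exact cof (h1.add (C.diag h)) (by apply eo; abel_nf; try simp only [ch2, ch3, ch4, ch5, ch6, add_zero, zero_add]) (by apply eo; abel_nf; try simp only [ch2, ch3, ch4, ch5, ch6, add_zero, zero_add])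
  · left
    intro c hc
    rcases h' c hc with h1 | h1
    · exact Or.inl h1
    · right; exact cof (h1.add (C.diag h)) (by apply eo; abel_nf; try simp only [ch2, ch3, ch4, ch5, ch6, add_zero, zero_add]) (by apply eo; abel_nf; try simp only [ch2, ch3, ch4, ch5, ch6, add_zero, zero_add])

theorem tf_of {a : V} (hva : C S h a) (h5 : ∀ t, C S (a + h) t → C S h t) : TF S a := by
  intro c hc
  rcases X.tri_iff'.1 hc with h' | h' | h' | h'
  · exact h'
  · exact cof (h'.add hva.symm) (by apply eo; abel_nf; try simp only [ch2, ch3, ch4, ch5, ch6, add_zero, zero_add]) (by apply eo; abel_nf; try simp only [ch2, ch3, ch4, ch5, ch6, add_zero, zero_add])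
  · exact cof (h'.add' (h5 _ h')) (by apply eo; abel_nf; try simp only [ch2, ch3, ch4, ch5, ch6, add_zero, zero_add]) (by apply eo; abel_nf; try simp only [ch2, ch3, ch4, ch5, ch6, add_zero, zero_add])
  · have h1 := h5 _ h'
    have h2 : C S a (c + h) := by exact cof (h'.add' h1) (by apply eo; abel_nf; try simp only [ch2, ch3, ch4, ch5, ch6, add_zero, zero_add]) (by apply eo; abel_nf; try simp only [ch2, ch3, ch4, ch5, ch6, add_zero, zero_add])
    exact cof (h2.add hva.symm) (by apply eo; abel_nf; try simp only [ch2, ch3, ch4, ch5, ch6, add_zero, zero_add]) (by apply eo; abel_nf; try simp only [ch2, ch3, ch4, ch5, ch6, add_zero, zero_add])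

theorem main [Finite V] {x : V} (h0 : h ≠ 0) (hx : ¬ C S h x) : (∃ x, Bir S x) ∨ Dec S := by
  have hvv : C S h h := X.hh
  have key : ∀ x, ¬ C S h x → Mn S x h → (∃ x, Bir S x) ∨ Dec S := by
    intro x hx hM
    have tf : ∀ n ∈ (S.ann x ⊓ S.ann h : Submodule (ZMod 2) V), TF S n := by
      intro n hn
      have hxn : C S x n := hn.1
      have hvn : C S h n := hn.2
      apply X.tf_of hvn
      rcases X.comp n with h' | h'
      · intro t ht
        rcases h' t ht with h1 | h1
        · exact h1
        · exact cof (h1.add hvn) (by apply eo; abel_nf; try simp only [ch2, ch3, ch4, ch5, ch6, add_zero, zero_add]) (by apply eo; abel_nf; try simp only [ch2, ch3, ch4, ch5, ch6, add_zero, zero_add])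
      · exfalso
        apply hx
        rcases h' x hxn.symm with h1 | h1
        · exact h1
        · exact cof ((h1.add hvn).add hvv) (by apply eo; abel_nf; try simp only [ch2, ch3, ch4, ch5, ch6, add_zero, zero_add]) (by apply eo; abel_nf; try simp only [ch2, ch3, ch4, ch5, ch6, add_zero, zero_add])
    obtain ⟨n, hn, hn0⟩ := exists_triv (S := S) (S.ann x ⊓ S.ann h) tf (by
      intro c hc h'
      rcases X.two c h' with h1 | h1
      · exact h1
      · exfalso
        have h2 : C S x c := hc.1
        rw [h1] at h2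
        exact hx h2.symm)
    have hxn : C S x n := hn.1
    have hvn : C S h n := hn.2
    have hsm := small_rig (S := S) (n := n) (x := x) (P := S.ann x ⊓ S.ann h) (tf n hn)
      hxn.symm hn (by
        intro c hc
        rcases hM c hc with h' | h'
        · left; exact ⟨hc, h'⟩
        · right; exact ⟨by exact cof (hc.add (C.diag x)) (by apply eo; abel_nf; try simp only [ch2, ch3, ch4, ch5, ch6, add_zero, zero_add]) (by apply eo; abel_nf; try simp only [ch2, ch3, ch4, ch5, ch6, add_zero, zero_add]), h'⟩) (fun c hc _ h2 => hn0 c hc h2)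
    have back : C S h (x + n + S.e) → False := by
      intro h'
      apply hx
      exact cof ((h'.add hvn).add X.mem.symm) (by apply eo; abel_nf; try simp only [ch2, ch3, ch4, ch5, ch6, add_zero, zero_add]) (by apply eo; abel_nf; try simp only [ch2, ch3, ch4, ch5, ch6, add_zero, zero_add])
    have Rz : Rg S (x + n + S.e) := by
      refine ⟨?_, ?_, ?_⟩
      · intro h'
        apply back
        rw [h']; exact C.zero h
      · intro h'
        apply back
        rw [h']; exact X.mem.symm
      · intro y hy
        exact hsm y (by exact cof (hy) (by apply eo; abel_nf; try simp only [ch2, ch3, ch4, ch5, ch6, add_zero, zero_add]) (by apply eo; abel_nf; try simp only [ch2, ch3, ch4, ch5, ch6, add_zero, zero_add]))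
    apply real' Rz
    intro h'
    rcases X.two _ h' with h1 | h1
    · apply back
      rw [h1]; exact C.zero h
    · apply back
      rw [h1]; exact hvv
  rcases X.cp x with h' | h'
  · exact key x hx h'
  · apply key (x + h) _ h'
    intro h1
    apply hx
    exact cof (h1.add hvv) (by apply eo; abel_nf; try simp only [ch2, ch3, ch4, ch5, ch6, add_zero, zero_add]) (by apply eo; abel_nf; try simp only [ch2, ch3, ch4, ch5, ch6, add_zero, zero_add])

end Hh

/-- **Structures with `|V_e| ≤ 2`** -/
theorem few [Finite V]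
    (hH : ∀ a b, C S S.e a → C S S.e b → a ≠ 0 → b ≠ 0 → a = b) :
    (∃ x, Bir S x) ∨ Dec S ∨ (∃ r, r ≠ 0 ∧ ∀ x, C S r x) ∨ (∀ x, x = 0 ∨ x = S.e) := by
  by_cases h0 : ∀ h, C S S.e h → h = 0
  · by_cases hR : ∃ v, Rg S v
    · obtain ⟨v, Rv⟩ := hR
      rcases pyth h0 Rv with h | h
      · exact Or.inl h
      · exact Or.inr (Or.inl h)
    · right; right; right
      push Not at hR
      intro x
      have h1 := generate h0 (Submodule.span (ZMod 2) {S.e})
        (Submodule.mem_span_singleton_self _) (fun z hz => absurd hz (hR z)) x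
      obtain ⟨c, hc⟩ := Submodule.mem_span_singleton.1 h1
      rcases Pool.Agent.Helper58.PLine.zm c with rfl | rfl
      · left; rw [← hc, zero_smul]
      · right; rw [← hc, one_smul]
  · push Not at h0
    obtain ⟨h, hh, hne⟩ := h0
    have X : Hh S h := by
      refine ⟨hh, fun y hy => ?_⟩
      by_cases hy0 : y = 0
      · exact Or.inl hy0
      · exact Or.inr (hH y h hy hh hy0 hne)
    by_cases hx : ∃ x, ¬ C S h x
    · obtain ⟨x, hx⟩ := hx
      rcases X.main hne hx with h | h
      · exact Or.inl h
      · exact Or.inr (Or.inl h)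
    · right; right; left
      push Not at hx
      exact ⟨h, hne, hx⟩

end Pool.Agent.ETCG
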