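import Pool.Agent.ETCG.Fam

/-!
# Rigid elements, the pythagorean case `V_e = 0` (helper13)
-/

set_option autoImplicit false
set_option linter.unusedSimpArgs false
set_option linter.unusedVariables false
set_option linter.unusedSectionVars false
set_option linter.unnecessarySeqFocus false

namespace Pool.Agent.ETCG

open Pool.Agent.Helper58.PLine (QData)
open Pool.Agent.ETCP

variable {V Q : Type} [AddCommGroup V] [Module (ZMod 2) V] {S : QData V Q}

section pyth

variable (hH : ∀ h, C S S.e h → h = 0)
include hH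

theorem tf_all (a : V) : TF S a := by
  intro c hc
  obtain ⟨u, w, hu, hw, h⟩ := tri_iff.1 hc
  rw [hH u hu, hH w hw] at h
  exact cof (h.symm) (by apply eo; abel_nf; try simp only [ch2, ch3, ch4, ch5, ch6, add_zero, zero_add]) (by apply eo; abel_nf; try simp only [ch2, ch3, ch4, ch5, ch6, add_zero, zero_add])

theorem lemF' {z v : V} (Rz : Rg S z) (Rv : Rg S v) (hne : z ≠ v) (hzv : ¬ C S z v) :
    Mn S z v ∨ Mn S v z := by
  apply Rz.lemF Rv hne hzv
  intro h hh h'
  rw [hH h hh] at h'
  exact hzv (by exact cof (h') (by apply eo; abel_nf; try simp only [ch2, ch3, ch4, ch5, ch6, add_zero, zero_add]) (by apply eo; abel_nf; try simp only [ch2, ch3, ch4, ch5, ch6, add_zero, zero_add]))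

theorem five {x v z : V} (Rx : Rg S x) (Rv : Rg S v) (Rz : Rg S z) (hxv : x ≠ v) (hxz : x ≠ z)
    (nxv : ¬ C S x v) (nxz : ¬ C S x z) (hM : Mn S x v) :
    ∀ c, C S x c → C S z c → C S v c := by
  intro c hc hzc
  rcases hM c hc with h | h
  · exact h
  · exfalso
    rcases Rx.atwo (a := c) (z := z) (w := v) hc.symm hzc.symm (by exact cof (h.symm) (by apply eo; abel_nf; try simp only [ch2, ch3, ch4, ch5, ch6, add_zero, zero_add]) (by apply eo; abel_nf; try simp only [ch2, ch3, ch4, ch5, ch6, add_zero, zero_add])) with h1 | h1 | h1 | h1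
    · exact nxv h1.symm
    · exact nxz h1
    · rcases Rz.rig _ h1.symm with h2 | h2
      · exact Rx.ne0 h2
      · exact hxz h2
    · rcases Rv.rig _ h1.symm with h2 | h2
      · exact Rx.ne0 h2
      · exact hxv h2

/-- the join, first form -/
theorem join1 [Finite V] {x v : V} (Rx : Rg S x) (Rv : Rg S v) (hxv : x ≠ v)
    (nxv : ¬ C S x v) (hM : Mn S x v) : ∃ j, ∀ c, C S j c ↔ C S x c ∧ C S v c := by
  obtain ⟨n, hn, hn0⟩ := exists_triv (S := S) (S.ann x ⊓ S.ann v) (fun n _ => tf_all hH n)
    (fun c _ hc => hH c hc)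
  have hxn : C S x n := hn.1
  have hvn : C S v n := hn.2
  have hsm := small_rig (P := S.ann x ⊓ S.ann v) (tf_all hH n) hxn.symm hn (by
    intro c hc
    rcases hM c hc with h | h
    · left; exact ⟨hc, h⟩
    · right; exact ⟨by exact cof (hc.add (C.diag x)) (by apply eo; abel_nf; try simp only [ch2, ch3, ch4, ch5, ch6, add_zero, zero_add]) (by apply eo; abel_nf; try simp only [ch2, ch3, ch4, ch5, ch6, add_zero, zero_add]), h⟩) (fun c hc _ h => hn0 c hc h)
  have Ry : Rg S (x + n + S.e) := by
    refine ⟨?_, ?_, ?_⟩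
    · intro h
      have h1 : n = x + S.e := by
        have : x + S.e + (x + n + S.e) = x + S.e + 0 := by rw [h]
        have h2 : n = x + S.e + (x + n + S.e) := by (apply eo; abel_nf; try simp only [ch2, ch3, ch4, ch5, ch6, add_zero, zero_add])
        rw [h2, this]; (apply eo; abel_nf; try simp only [ch2, ch3, ch4, ch5, ch6, add_zero, zero_add])
      rw [h1] at hvn
      rcases Rx.rig _ hvn.symm with h2 | h2
      · exact Rv.ne0 h2
      · exact hxv h2.symm
    · intro h
      have h1 : x = n := by
        have h2 : x + n = (x + n + S.e) + S.e := by (apply eo; abel_nf; try simp only [ch2, ch3, ch4, ch5, ch6, add_zero, zero_add])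
        apply eo
        rw [h2, h]; (apply eo; abel_nf; try simp only [ch2, ch3, ch4, ch5, ch6, add_zero, zero_add])
      rw [← h1] at hxn
      apply Rx.ne0
      apply hH
      exact cof ((hxn.add (C.diag x)).symm) (by apply eo; abel_nf; try simp only [ch2, ch3, ch4, ch5, ch6, add_zero, zero_add]) (by apply eo; abel_nf; try simp only [ch2, ch3, ch4, ch5, ch6, add_zero, zero_add])
    · intro y hy
      exact hsm y (by exact cof (hy) (by apply eo; abel_nf; try simp only [ch2, ch3, ch4, ch5, ch6, add_zero, zero_add]) (by apply eo; abel_nf; try simp only [ch2, ch3, ch4, ch5, ch6, add_zero, zero_add]))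
  have key : ∀ a, C S x a → C S v a → C S a (n + S.e) := by
    intro a hxa hva
    have e1 : S.q (x + n + S.e + S.e) a = S.q n a := q_eq'_iff.2 (by exact cof (hxa) (by apply eo; abel_nf; try simp only [ch2, ch3, ch4, ch5, ch6, add_zero, zero_add]) (by apply eo; abel_nf; try simp only [ch2, ch3, ch4, ch5, ch6, add_zero, zero_add]))
    have e2 : S.q n a = S.q (a + v) n := by
      rw [S.symm n a]
      exact q_eq'_iff.2 (by exact cof (hvn) (by apply eo; abel_nf; try simp only [ch2, ch3, ch4, ch5, ch6, add_zero, zero_add]) (by apply eo; abel_nf; try simp only [ch2, ch3, ch4, ch5, ch6, add_zero, zero_add]))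
    rcases Ry.slot (e1.trans e2) with h | h
    · have h1 : C S (a + n) a := by exact cof ((h.add' hxa).add' hva) (by apply eo; abel_nf; try simp only [ch2, ch3, ch4, ch5, ch6, add_zero, zero_add]) (by apply eo; abel_nf; try simp only [ch2, ch3, ch4, ch5, ch6, add_zero, zero_add])
      exact cof (h1.symm.add (C.diag a)) (by apply eo; abel_nf; try simp only [ch2, ch3, ch4, ch5, ch6, add_zero, zero_add]) (by apply eo; abel_nf; try simp only [ch2, ch3, ch4, ch5, ch6, add_zero, zero_add])
    · exfalso
      have h1 : C S v (a + (x + n + S.e)) := by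
        exact cof (h.add' (C.diag' (a + (x + n + S.e)))) (by apply eo; abel_nf; try simp only [ch2, ch3, ch4, ch5, ch6, add_zero, zero_add]) (by apply eo; abel_nf; try simp only [ch2, ch3, ch4, ch5, ch6, add_zero, zero_add])
      have h2 : C S v (x + S.e) := by exact cof ((h1.add hva).add hvn) (by apply eo; abel_nf; try simp only [ch2, ch3, ch4, ch5, ch6, add_zero, zero_add]) (by apply eo; abel_nf; try simp only [ch2, ch3, ch4, ch5, ch6, add_zero, zero_add])
      rcases Rx.rig _ h2.symm with h3 | h3
      · exact Rv.ne0 h3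
      · exact hxv h3.symm
  refine ⟨n + S.e, fun c => ⟨fun h => ⟨?_, ?_⟩, fun h => (key c h.1 h.2).symm⟩⟩
  · exact (tf_all hH x).sub hxn h
  · exact (tf_all hH v).sub hvn h

theorem join [Finite V] {x v : V} (Rx : Rg S x) (Rv : Rg S v) (hxv : x ≠ v)
    (nxv : ¬ C S x v) : ∃ j, ∀ c, C S j c ↔ C S x c ∧ C S v c := by
  rcases lemF' hH Rx Rv hxv nxv with h | h
  · exact join1 hH Rx Rv hxv nxv h
  · obtain ⟨j, hj⟩ := join1 hH Rv Rx hxv.symm (fun h' => nxv h'.symm) h
    exact ⟨j, fun c => (hj c).trans and_comm⟩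

theorem compar [Finite V] {x v z : V} (Rx : Rg S x) (Rv : Rg S v) (Rz : Rg S z) (hxv : x ≠ v)
    (hxz : x ≠ z) (nxv : ¬ C S x v) (nxz : ¬ C S x z) :
    (∀ c, C S x c → C S v c → C S z c) ∨ (∀ c, C S x c → C S z c → C S v c) := by
  rcases lemF' hH Rx Rv hxv nxv with h1 | h1
  · right; exact five hH Rx Rv Rz hxv hxz nxv nxz h1
  rcases lemF' hH Rx Rz hxz nxz with h2 | h2
  · left; exact five hH Rx Rz Rv hxz hxv nxz nxv h2
  by_cases hvz : v = z
  · left; intro c _ h; rw [← hvz]; exact h
  by_cases nvz : C S v z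
  · left
    obtain ⟨j, hj⟩ := join hH Rx Rv hxv nxv
    obtain ⟨k1, k2⟩ := (hj (j + S.e)).1 (C.diag j)
    have h3 : C S x (z + v + S.e) := by
      rcases h1 z nvz with h | h
      · exact absurd h nxz
      · exact h
    have h4 : C S j (z + v + S.e) := (hj _).2 ⟨h3, by exact cof (nvz.add (C.diag v)) (by apply eo; abel_nf; try simp only [ch2, ch3, ch4, ch5, ch6, add_zero, zero_add]) (by apply eo; abel_nf; try simp only [ch2, ch3, ch4, ch5, ch6, add_zero, zero_add])⟩
    have e1 : S.q j (z + S.e) = S.q j v := q_eq_iff.2 (by exact cof (h4) (by apply eo; abel_nf; try simp only [ch2, ch3, ch4, ch5, ch6, add_zero, zero_add]) (by apply eo; abel_nf; try simp only [ch2, ch3, ch4, ch5, ch6, add_zero, zero_add]))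
    have e2 : S.q v j = S.q v (z + S.e) := q_eq_iff.2 (by exact cof (k2.add nvz) (by apply eo; abel_nf; try simp only [ch2, ch3, ch4, ch5, ch6, add_zero, zero_add]) (by apply eo; abel_nf; try simp only [ch2, ch3, ch4, ch5, ch6, add_zero, zero_add]))
    have h5 : C S (j + v) (z + S.e) := q_eq'_iff.1 (by rw [e1, ← e2, S.symm])
    rcases Rz.rig _ h5.symm with h6 | h6
    · exfalso
      have h7 := eo h6
      have h8 : C S j (v + S.e) := by rw [h7]; exact C.diag v
      have h9 := ((hj _).1 h8).1
      rcases Rv.rig _ h9.symm with h10 | h10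
      · exact Rx.ne0 h10
      · exact hxv h10
    · intro c hxc hvc
      have h7 := (hj c).2 ⟨hxc, hvc⟩
      rw [← h6]
      exact h7.add' hvc
  · rcases lemF' hH Rv Rz hvz nvz with h3 | h3
    · left
      intro c hxc hvc
      exact five hH Rv Rz Rx hvz (Ne.symm hxv) nvz (fun h => nxv h.symm) h3 c hvc hxc
    · right
      intro c hxc hzc
      exact five hH Rz Rv Rx (Ne.symm hvz) (Ne.symm hxz) (fun h => nvz h.symm)
        (fun h => nxz h.symm) h3 c hzc hxc

/-- rigid elements generate -/
theorem generate [Finite V] (D : Submodule (ZMod 2) V) (he : S.e ∈ D) (hr : ∀ z, Rg S z → z ∈ D) :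
    ∀ x, x ∈ D := by
  have main : ∀ n : ℕ, ∀ x : V, Nat.card (S.ann (x + S.e)) ≤ n → x ∈ D := by
    intro n
    induction n with
    | zero =>
      intro x hx
      exfalso
      have : 0 < Nat.card (S.ann (x + S.e)) := Nat.card_pos
      omega
    | succ n ih =>
      intro x hx
      by_contra hxD
      have hx0 : x ≠ 0 := fun h => hxD (h ▸ D.zero_mem)
      have hxe : x ≠ S.e := fun h => hxD (h ▸ he)
      have hnr : ¬ Rg S x := fun h => hxD (hr x h)
      have : ∃ d, C S (x + S.e) d ∧ d ≠ 0 ∧ d ≠ x := by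
        by_contra hcon
        push Not at hcon
        apply hnr
        refine ⟨hx0, hxe, fun y hy => ?_⟩
        by_cases hy0 : y = 0
        · exact Or.inl hy0
        · exact Or.inr (hcon y hy hy0)
      obtain ⟨d, hd, hd0, hdx⟩ := this
      have small : ∀ d, C S (x + S.e) d → d ≠ x → d ∈ D := by
        intro d hd hdx
        apply ih
        have h2 : (S.ann (d + S.e)) < S.ann (x + S.e) := by
          refine lt_of_le_of_ne ?_ ?_
          · intro c hc
            exact (tf_all hH (x + S.e)).sub hd hc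
          · intro h
            have h3 : x ∈ S.ann (x + S.e) := C.diag' x
            rw [← h] at h3
            have h4 : C S (d + S.e) x := h3
            have e1 : S.q x d = S.q x S.e := q_eq_iff.2 (by exact cof (h4.symm) (by apply eo; abel_nf; try simp only [ch2, ch3, ch4, ch5, ch6, add_zero, zero_add]) (by apply eo; abel_nf; try simp only [ch2, ch3, ch4, ch5, ch6, add_zero, zero_add]))
            have e2 : S.q d x = S.q d S.e := q_eq_iff.2 (by exact cof (hd.symm) (by apply eo; abel_nf; try simp only [ch2, ch3, ch4, ch5, ch6, add_zero, zero_add]) (by apply eo; abel_nf; try simp only [ch2, ch3, ch4, ch5, ch6, add_zero, zero_add]))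
            have h5 : C S (x + d) S.e := q_eq'_iff.1 (by rw [← e1, ← e2, S.symm])
            exact hdx (eo (hH _ h5.symm)).symm
        have h3 := Set.ncard_lt_ncard (s := ((S.ann (d + S.e) : Submodule (ZMod 2) V) : Set V))
          (t := ((S.ann (x + S.e) : Submodule (ZMod 2) V) : Set V)) h2 (Set.toFinite _)
        have e1 : ∀ M : Submodule (ZMod 2) V, (M : Set V).ncard = Nat.card M := fun M => rfl
        rw [e1, e1] at h3
        omega
      have h1 := small d hd hdx
      have h2 := small (x + d) (by exact cof (hd.add (C.diag' x)) (by apply eo; abel_nf; try simp only [ch2, ch3, ch4, ch5, ch6, add_zero, zero_add]) (by apply eo; abel_nf; try simp only [ch2, ch3, ch4, ch5, ch6, add_zero, zero_add])) (by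
        intro h
        apply hd0
        have : d = x + (x + d) := by (apply eo; abel_nf; try simp only [ch2, ch3, ch4, ch5, ch6, add_zero, zero_add])
        rw [this, h]; (apply eo; abel_nf; try simp only [ch2, ch3, ch4, ch5, ch6, add_zero, zero_add]))
      apply hxD
      have : x = d + (x + d) := by (apply eo; abel_nf; try simp only [ch2, ch3, ch4, ch5, ch6, add_zero, zero_add])
      rw [this]
      exact D.add_mem h1 h2
  intro x
  exact main _ x le_rfl

theorem split [Finite V] {j : V} (hj : ∀ z, Rg S z → C S j z ∨ C S (j + S.e) z)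
    (ha : ∃ a, a ≠ 0 ∧ C S (j + S.e) a) (hb : ∃ b, b ≠ 0 ∧ C S j b) : Dec S := by
  obtain ⟨a, ha0, ha⟩ := ha
  obtain ⟨b, hb0, hb⟩ := hb
  refine ⟨S.ann (j + S.e), S.ann j, ?_, ?_, ?_, ?_, ?_⟩
  · intro h
    have : a ∈ S.ann (j + S.e) := ha
    rw [h, Submodule.mem_bot] at this
    exact ha0 this
  · intro h
    have : b ∈ S.ann j := hb
    rw [h, Submodule.mem_bot] at this
    exact hb0 this
  · constructor
    · rw [Submodule.disjoint_def]
      intro x h1 h2
      have h1' : C S (j + S.e) x := h1
      have h2' : C S j x := h2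
      exact hH x (by exact cof (h1'.add' h2') (by apply eo; abel_nf; try simp only [ch2, ch3, ch4, ch5, ch6, add_zero, zero_add]) (by apply eo; abel_nf; try simp only [ch2, ch3, ch4, ch5, ch6, add_zero, zero_add]))
    · rw [codisjoint_iff, eq_top_iff]
      intro x _
      apply generate hH
      · have h1 : j ∈ S.ann (j + S.e) := C.diag' j
        have h2 : j + S.e ∈ S.ann j := C.diag j
        have h3 := Submodule.add_mem_sup h1 h2
        have h4 : j + (j + S.e) = S.e := by (apply eo; abel_nf; try simp only [ch2, ch3, ch4, ch5, ch6, add_zero, zero_add])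
        convert h3 using 1
        exact h4.symm
      · intro z hz
        rcases hj z hz with h | h
        · exact Submodule.mem_sup_right h
        · exact Submodule.mem_sup_left h
  · intro a ha b hb
    have ha' : C S (j + S.e) a := ha
    have hb' : C S j b := hb
    exact ((tf_all hH b).sub hb'.symm ha').symm
  · intro a ha b hb c hc
    have ha' : C S (j + S.e) a := ha
    have hb' : C S j b := hb
    have hab : C S a b := ((tf_all hH b).sub hb'.symm ha').symm
    exact (tf_all hH a).sub' hab hc

/-- **Rigid elements in the pythagorean case** -/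
theorem pyth [Finite V] {v : V} (Rv : Rg S v) : (∃ x, Bir S x) ∨ Dec S := by
  by_cases hp : ∃ x v, Rg S x ∧ Rg S v ∧ x ≠ v ∧ ¬ C S x v
  · -- choose a pair with smallest `V_x ∩ V_v`
    let f : V × V → ℕ := fun p => Nat.card (S.ann p.1 ⊓ S.ann p.2 : Submodule (ZMod 2) V)
    obtain ⟨x0, v0, h0⟩ := hp
    obtain ⟨⟨x, v⟩, ⟨Rx, Rv, hxv, nxv⟩, hmin⟩ := Set.exists_min_image
      {p : V × V | Rg S p.1 ∧ Rg S p.2 ∧ p.1 ≠ p.2 ∧ ¬ C S p.1 p.2} f (Set.toFinite _)
      ⟨(x0, v0), h0⟩
    dsimp only at Rx Rv hxv nxv
    obtain ⟨j, hj⟩ := join hH Rx Rv hxv nxv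
    obtain ⟨k1, k2⟩ := (hj (j + S.e)).1 (C.diag j)
    -- comparison with another pair
    have aux : ∀ x v z, Rg S x → Rg S v → Rg S z → x ≠ v → ¬ C S x v → x ≠ z → ¬ C S x z →
        (∀ c, C S j c ↔ C S x c ∧ C S v c) →
        (Nat.card (S.ann x ⊓ S.ann v : Submodule (ZMod 2) V) ≤
          Nat.card (S.ann x ⊓ S.ann z : Submodule (ZMod 2) V)) → C S (j + S.e) z := by
      intro x v z Rx Rv Rz hxv nxv hxz nxz hj hle
      obtain ⟨k1, k2⟩ := (hj (j + S.e)).1 (C.diag j)
      rcases compar hH Rx Rv Rz hxv hxz nxv nxz with h | h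
      · exact (h _ k1 k2).symm
      · have h2 : (S.ann x ⊓ S.ann z : Submodule (ZMod 2) V) ≤ S.ann x ⊓ S.ann v :=
          fun c hc => ⟨hc.1, h c hc.1 hc.2⟩
        have h3 : (S.ann x ⊓ S.ann z : Submodule (ZMod 2) V) = S.ann x ⊓ S.ann v := by
          apply SetLike.coe_injective
          apply Set.eq_of_subset_of_ncard_le h2 _ (Set.toFinite _)
          have e1 : ∀ M : Submodule (ZMod 2) V, (M : Set V).ncard = Nat.card M := fun M => rfl
          rw [e1, e1]; exact hle
        have h4 : j + S.e ∈ (S.ann x ⊓ S.ann v : Submodule (ZMod 2) V) := ⟨k1, k2⟩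
        rw [← h3] at h4
        have h5 : C S z (j + S.e) := h4.2
        exact h5.symm
    have hall : ∀ z, Rg S z → C S j z ∨ C S (j + S.e) z := by
      intro z Rz
      by_cases h1 : C S x z
      · by_cases h2 : C S v z
        · left; exact (hj z).2 ⟨h1, h2⟩
        · right
          by_cases hvz : v = z
          · rw [← hvz]; exact k2.symm
          · apply aux v x z Rv Rx Rz (Ne.symm hxv) (fun h => nxv h.symm) hvz h2
              (fun c => (hj c).trans and_comm)
            have h3 := hmin (v, z) ⟨Rv, Rz, hvz, h2⟩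
            dsimp only [f] at h3
            rw [inf_comm (S.ann v) (S.ann x)]
            exact h3
      · right
        by_cases hxz : x = z
        · rw [← hxz]; exact k1.symm
        · exact aux x v z Rx Rv Rz hxv nxv hxz h1 hj (hmin (x, z) ⟨Rx, Rz, hxz, h1⟩)
    by_cases hb : ∃ b, b ≠ 0 ∧ C S j b
    · right
      exact split hH hall ⟨x, Rx.ne0, k1.symm⟩ hb
    · left
      push Not at hb
      have aux2 : ∀ x v, Rg S x → (∀ c, C S j c ↔ C S x c ∧ C S v c) → Mn S x v → Bir S x := by
        intro x v Rx hj hM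
        refine ⟨Rx, fun y hy => ?_⟩
        rcases hM y hy with h | h
        · left
          by_contra h0
          exact hb y h0 ((hj y).2 ⟨hy, h⟩)
        · right
          have h3 : y + x + S.e = 0 := by
            by_contra h0
            exact hb _ h0 ((hj _).2 ⟨by exact cof (hy.add (C.diag x)) (by apply eo; abel_nf; try simp only [ch2, ch3, ch4, ch5, ch6, add_zero, zero_add]) (by apply eo; abel_nf; try simp only [ch2, ch3, ch4, ch5, ch6, add_zero, zero_add]), h⟩)
          apply eo
          rw [← h3]; abel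
      rcases lemF' hH Rx Rv hxv nxv with h | h
      · exact ⟨x, aux2 x v Rx hj h⟩
      · exact ⟨v, aux2 v x Rv (fun c => (hj c).trans and_comm) h⟩
  · right
    push Not at hp
    apply split hH (j := v)
    · intro z Rz
      by_cases h : v = z
      · right; rw [← h]; exact C.diag' v
      · left; exact hp v z Rv Rz h
    · exact ⟨v, Rv.ne0, C.diag' v⟩
    · exact ⟨v + S.e, fun h => Rv.nee (eo h), C.diag v⟩

end pyth

end Pool.Agent.ETCG
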