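import Pool.Agent.ETCG.Real
import Pool.Agent.ETCG.Pyth

/-!
# Rigid elements: the general theorem (helper13)
-/

set_option autoImplicit false
set_option linter.unusedSimpArgs false
set_option linter.unusedVariables false
set_option linter.unusedSectionVars false
set_option linter.unnecessarySeqFocus false

namespace Pool.Agent.ETCG

open Pool.Agent.Helper58.PLine (QData)
open Pool.Agent.ETCP

variable {V Q : Type} [AddCommGroup V] [Module (ZMod 2) V] {S : QData V Q}

theorem Rg.cp {w : V} (Rw : Rg S w) (x : V) : Mn S x w ∨ Mn S (x + w) w := by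
  rcases Rw.comp x with h | h
  · right
    intro c hc
    rcases h c hc with h1 | h1
    · exact Or.inl h1
    · right; exact cof (h1.add (C.diag w)) (by apply eo; abel_nf; try simp only [ch2, ch3, ch4, ch5, ch6, add_zero, zero_add]) (by apply eo; abel_nf; try simp only [ch2, ch3, ch4, ch5, ch6, add_zero, zero_add])
  · left
    intro c hc
    rcases h c hc with h1 | h1
    · exact Or.inl h1
    · right; exact cof (h1.add (C.diag w)) (by apply eo; abel_nf; try simp only [ch2, ch3, ch4, ch5, ch6, add_zero, zero_add]) (by apply eo; abel_nf; try simp only [ch2, ch3, ch4, ch5, ch6, add_zero, zero_add])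

/-- a rigid element outside `H` -/
theorem real' [Finite V] {v : V} (Rv : Rg S v) (hv : ¬ C S S.e v) : (∃ x, Bir S x) ∨ Dec S := by
  by_cases hH : ∀ h, C S S.e h → h = 0
  · exact pyth hH Rv
  · push Not at hH
    obtain ⟨h0, hh, hne⟩ := hH
    exact real Rv hv hne hh

/-- `V_{a + v} ⊆ V_v` implies that `a` is torsion-free -/
theorem Rg.tf_of {v a : V} (R : Rg S v) (hva : C S v a) (h5 : ∀ t, C S (a + v) t → C S v t) :
    TF S a := by
  intro c hc
  have e1 : S.q S.e a = S.q (v + S.e) a := q_eq'_iff.2 (by exact cof (hva) (by apply eo; abel_nf; try simp only [ch2, ch3, ch4, ch5, ch6, add_zero, zero_add]) (by apply eo; abel_nf; try simp only [ch2, ch3, ch4, ch5, ch6, add_zero, zero_add]))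
  rcases R.tri_iff'.1 (tri_congr_q e1 hc) with h | h | h | h
  · exact h
  · exact cof (h.add hva.symm) (by apply eo; abel_nf; try simp only [ch2, ch3, ch4, ch5, ch6, add_zero, zero_add]) (by apply eo; abel_nf; try simp only [ch2, ch3, ch4, ch5, ch6, add_zero, zero_add])
  · exact cof (h.add' (h5 _ h)) (by apply eo; abel_nf; try simp only [ch2, ch3, ch4, ch5, ch6, add_zero, zero_add]) (by apply eo; abel_nf; try simp only [ch2, ch3, ch4, ch5, ch6, add_zero, zero_add])
  · have h1 := h5 _ h
    have h2 : C S a (c + v) := by exact cof (h.add' h1) (by apply eo; abel_nf; try simp only [ch2, ch3, ch4, ch5, ch6, add_zero, zero_add]) (by apply eo; abel_nf; try simp only [ch2, ch3, ch4, ch5, ch6, add_zero, zero_add])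
    exact cof (h2.add hva.symm) (by apply eo; abel_nf; try simp only [ch2, ch3, ch4, ch5, ch6, add_zero, zero_add]) (by apply eo; abel_nf; try simp only [ch2, ch3, ch4, ch5, ch6, add_zero, zero_add])

/-- case III a -/
theorem ima [Finite V] {v h0 : V} (Rv : Rg S v) (he : S.e ≠ 0) (hv : C S S.e v) (hne : h0 ≠ 0)
    (hnv : h0 ≠ v) (hh : C S S.e h0) : (∃ x, Bir S x) ∨ Dec S := by
  have hvv : C S v v := by exact cof (hv.symm.add (C.diag v)) (by apply eo; abel_nf; try simp only [ch2, ch3, ch4, ch5, ch6, add_zero, zero_add]) (by apply eo; abel_nf; try simp only [ch2, ch3, ch4, ch5, ch6, add_zero, zero_add])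
  have WH : ∀ w, C S v w → C S S.e w → w = 0 ∨ w = v := fun w h1 h2 => Rv.rig w (h1.add' h2)
  have nvh : ¬ C S v h0 := by
    intro h
    rcases WH h0 h hh with h1 | h1
    · exact hne h1
    · exact hnv h1
  have two : ∀ a, C S v a → a ∈ YY S v ∨ a + v ∈ YY S v := by
    intro a ha
    rcases Rv.cov ha with h | h
    · exact Or.inl ⟨ha, h⟩
    · exact Or.inr ⟨ha.add hvv, h⟩
  have five : ∀ a ∈ YY S v, ∀ t, C S (a + v) t → C S v t := by
    intro a ha
    rcases Rv.comp a with h | h
    · intro t ht
      rcases h t ht with h1 | h1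
      · exact h1
      · exact cof (h1.add ha.1) (by apply eo; abel_nf; try simp only [ch2, ch3, ch4, ch5, ch6, add_zero, zero_add]) (by apply eo; abel_nf; try simp only [ch2, ch3, ch4, ch5, ch6, add_zero, zero_add])
    · exfalso
      apply nvh
      rcases h h0 (ha.2 h0 hh) with h1 | h1
      · exact h1
      · exact cof ((h1.add ha.1).add hvv) (by apply eo; abel_nf; try simp only [ch2, ch3, ch4, ch5, ch6, add_zero, zero_add]) (by apply eo; abel_nf; try simp only [ch2, ch3, ch4, ch5, ch6, add_zero, zero_add])
  have tf : ∀ a ∈ YY S v, TF S a := fun a ha => Rv.tf_of ha.1 (five a ha)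
  have vnY : v ∉ YY S v := fun h => nvh (h.2 h0 hh)
  have YH : ∀ c ∈ YY S v, C S S.e c → c = 0 := by
    intro c hc h
    rcases WH c hc.1 h with h1 | h1
    · exact h1
    · exact absurd (h1 ▸ hc) vnY
  have eY : S.e ∈ YY S v := ⟨hv.symm, fun h hh => hh⟩
  obtain ⟨D, hDdef⟩ : ∃ D, D = YY S v ⊔ S.ann S.e := ⟨_, rfl⟩
  have inY : ∀ a ∈ YY S v, a ∈ D := fun a ha => hDdef ▸ Submodule.mem_sup_left ha
  have inH : ∀ a, C S S.e a → a ∈ D := fun a ha => hDdef ▸ Submodule.mem_sup_right ha
  have inW : ∀ a, C S v a → a ∈ D := by
    intro a ha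
    rcases two a ha with h | h
    · exact inY a h
    · have h2 := D.add_mem (inY _ h) (inH v hv)
      have : a + v + v = a := by (apply eo; abel_nf; try simp only [ch2, ch3, ch4, ch5, ch6, add_zero, zero_add])
      rwa [this] at h2
  -- small elements outside `D`
  have key : ∀ x, x ∉ D → Mn S x v → (∃ x, Bir S x) ∨ Dec S := by
    intro x hx hM
    have one : ∀ c, C S x c → C S v c → c ∈ YY S v := by
      intro c hxc hvc
      rcases two c hvc with h | h
      · exact h
      · exfalso
        apply hx
        have e1 : S.q v x = S.q (c + v) x := q_eq'_iff.2 (by exact cof (hxc.symm) (by apply eo; abel_nf; try simp only [ch2, ch3, ch4, ch5, ch6, add_zero, zero_add]) (by apply eo; abel_nf; try simp only [ch2, ch3, ch4, ch5, ch6, add_zero, zero_add]))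
        obtain ⟨r, h1, h2, h3⟩ := link e1
        have h4 : C S v r := five _ h r (by exact cof (h3) (by apply eo; abel_nf; try simp only [ch2, ch3, ch4, ch5, ch6, add_zero, zero_add]) (by apply eo; abel_nf; try simp only [ch2, ch3, ch4, ch5, ch6, add_zero, zero_add]))
        exact inW x (by exact cof (h1.add h4) (by apply eo; abel_nf; try simp only [ch2, ch3, ch4, ch5, ch6, add_zero, zero_add]) (by apply eo; abel_nf; try simp only [ch2, ch3, ch4, ch5, ch6, add_zero, zero_add]))
    have hP : ∀ c, C S x c → c ∈ YY S v ∨ c + x + S.e ∈ YY S v := by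
      intro c hc
      rcases hM c hc with h | h
      · exact Or.inl (one c hc h)
      · exact Or.inr (one _ (by exact cof (hc.add (C.diag x)) (by apply eo; abel_nf; try simp only [ch2, ch3, ch4, ch5, ch6, add_zero, zero_add]) (by apply eo; abel_nf; try simp only [ch2, ch3, ch4, ch5, ch6, add_zero, zero_add])) h)
    obtain ⟨n, hn, hn0⟩ := exists_triv (S := S) (YY S v ⊓ S.ann x) (fun n hn => tf n hn.1)
      (fun c hc h => YH c hc.1 h)
    have hnx : C S x n := hn.2
    have hsm := small_rig (S := S) (n := n) (x := x) (P := YY S v) (tf n hn.1) hnx.symm hn.1 hP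
      (fun c hc h1 h2 => hn0 c ⟨hc, h1⟩ h2)
    have back : x + n + S.e ∈ D → False := by
      intro h
      apply hx
      have h3 := D.add_mem (D.add_mem h (inY _ hn.1)) (inY _ eY)
      have : x + n + S.e + n + S.e = x := by (apply eo; abel_nf; try simp only [ch2, ch3, ch4, ch5, ch6, add_zero, zero_add])
      rwa [this] at h3
    have Rz : Rg S (x + n + S.e) := by
      refine ⟨?_, ?_, ?_⟩
      · intro h
        apply back
        rw [h]; exact D.zero_mem
      · intro h
        apply back
        rw [h]; exact inY _ eY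
      · intro y hy
        exact hsm y (by exact cof (hy) (by apply eo; abel_nf; try simp only [ch2, ch3, ch4, ch5, ch6, add_zero, zero_add]) (by apply eo; abel_nf; try simp only [ch2, ch3, ch4, ch5, ch6, add_zero, zero_add]))
    exact real' Rz (fun h => back (inH _ h))
  by_cases htop : ∀ x, x ∈ D
  · right
    refine ⟨YY S v, S.ann S.e, ?_, ?_, ?_, ?_, ?_⟩
    · intro h
      rw [h, Submodule.mem_bot] at eY
      exact he eY
    · intro h
      have : v ∈ S.ann S.e := hv
      rw [h, Submodule.mem_bot] at this
      exact Rv.ne0 this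
    · constructor
      · rw [Submodule.disjoint_def]
        intro x h1 h2
        exact YH x h1 h2
      · rw [codisjoint_iff, eq_top_iff]
        intro x _
        rw [← hDdef]
        exact htop x
    · intro a ha b hb
      exact ha.2 b hb
    · intro a ha b hb c hc
      exact (tf a ha).sub' (ha.2 b hb) hc
  · push Not at htop
    obtain ⟨x, hx⟩ := htop
    rcases Rv.cp x with h | h
    · exact key x hx h
    · apply key (x + v) _ h
      intro h1
      apply hx
      have h2 := D.add_mem h1 (inH v hv)
      have : x + v + v = x := by (apply eo; abel_nf; try simp only [ch2, ch3, ch4, ch5, ch6, add_zero, zero_add])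
      rwa [this] at h2

/-- case III b -/
theorem imb [Finite V] {v x : V} (Rv : Rg S v) (hv : C S S.e v)
    (hH : ∀ h, C S S.e h → h = 0 ∨ h = v) (hx : ¬ C S v x) : (∃ x, Bir S x) ∨ Dec S := by
  have hvv : C S v v := by exact cof (hv.symm.add (C.diag v)) (by apply eo; abel_nf; try simp only [ch2, ch3, ch4, ch5, ch6, add_zero, zero_add]) (by apply eo; abel_nf; try simp only [ch2, ch3, ch4, ch5, ch6, add_zero, zero_add])
  have key : ∀ x, ¬ C S v x → Mn S x v → (∃ x, Bir S x) ∨ Dec S := by
    intro x hx hM
    have tf : ∀ n ∈ (S.ann x ⊓ S.ann v : Submodule (ZMod 2) V), TF S n := by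
      intro n hn
      have hxn : C S x n := hn.1
      have hvn : C S v n := hn.2
      apply Rv.tf_of hvn
      rcases Rv.comp n with h | h
      · intro t ht
        rcases h t ht with h1 | h1
        · exact h1
        · exact cof (h1.add hvn) (by apply eo; abel_nf; try simp only [ch2, ch3, ch4, ch5, ch6, add_zero, zero_add]) (by apply eo; abel_nf; try simp only [ch2, ch3, ch4, ch5, ch6, add_zero, zero_add])
      · exfalso
        apply hx
        rcases h x hxn.symm with h1 | h1
        · exact h1
        · exact cof ((h1.add hvn).add hvv) (by apply eo; abel_nf; try simp only [ch2, ch3, ch4, ch5, ch6, add_zero, zero_add]) (by apply eo; abel_nf; try simp only [ch2, ch3, ch4, ch5, ch6, add_zero, zero_add])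
    obtain ⟨n, hn, hn0⟩ := exists_triv (S := S) (S.ann x ⊓ S.ann v) tf (by
      intro c hc h
      rcases hH c h with h1 | h1
      · exact h1
      · exfalso
        have h2 : C S x c := hc.1
        rw [h1] at h2
        exact hx h2.symm)
    have hxn : C S x n := hn.1
    have hvn : C S v n := hn.2
    have hsm := small_rig (S := S) (n := n) (x := x) (P := S.ann x ⊓ S.ann v) (tf n hn)
      hxn.symm hn (by
        intro c hc
        rcases hM c hc with h | h
        · left; exact ⟨hc, h⟩
        · right; exact ⟨by exact cof (hc.add (C.diag x)) (by apply eo; abel_nf; try simp only [ch2, ch3, ch4, ch5, ch6, add_zero, zero_add]) (by apply eo; abel_nf; try simp only [ch2, ch3, ch4, ch5, ch6, add_zero, zero_add]), h⟩) (fun c hc _ h2 => hn0 c hc h2)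
    have back : C S v (x + n + S.e) → False := by
      intro h
      apply hx
      exact cof ((h.add hvn).add hv.symm) (by apply eo; abel_nf; try simp only [ch2, ch3, ch4, ch5, ch6, add_zero, zero_add]) (by apply eo; abel_nf; try simp only [ch2, ch3, ch4, ch5, ch6, add_zero, zero_add])
    have Rz : Rg S (x + n + S.e) := by
      refine ⟨?_, ?_, ?_⟩
      · intro h
        apply back
        rw [h]; exact C.zero v
      · intro h
        apply back
        rw [h]; exact hv.symm
      · intro y hy
        exact hsm y (by exact cof (hy) (by apply eo; abel_nf; try simp only [ch2, ch3, ch4, ch5, ch6, add_zero, zero_add]) (by apply eo; abel_nf; try simp only [ch2, ch3, ch4, ch5, ch6, add_zero, zero_add]))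
    apply real' Rz
    intro h
    rcases hH _ h with h1 | h1
    · apply back
      rw [h1]; exact C.zero v
    · apply back
      rw [h1]; exact hvv
  rcases Rv.cp x with h | h
  · exact key x hx h
  · apply key (x + v) _ h
    intro h1
    apply hx
    exact cof (h1.add hvv) (by apply eo; abel_nf; try simp only [ch2, ch3, ch4, ch5, ch6, add_zero, zero_add]) (by apply eo; abel_nf; try simp only [ch2, ch3, ch4, ch5, ch6, add_zero, zero_add])

/-- **Theorem.** A finite quaternionic structure (with arbitrary `-1 = e`) which has a rigid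
element `v` (`D<1, v> = {1, v}`, `v ≠ 1, -1`), not in the radical, has a birigid element or a
direct product decomposition. -/
theorem rigid [Finite V] {v : V} (Rv : Rg S v) (hr : ∃ x, ¬ C S v x) :
    (∃ x, Bir S x) ∨ Dec S := by
  by_cases he : S.e = 0
  · left
    refine ⟨v, Rv, fun y hy => ?_⟩
    rcases Rv.rig y (by rw [he, add_zero]; exact hy) with h | h
    · exact Or.inl h
    · right; rw [h, he, add_zero]
  by_cases hv : C S S.e v
  · by_cases h0 : ∃ h0, C S S.e h0 ∧ h0 ≠ 0 ∧ h0 ≠ v
    · obtain ⟨h0, h1, h2, h3⟩ := h0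
      exact ima Rv he hv h2 h3 h1
    · push Not at h0
      obtain ⟨x, hx⟩ := hr
      apply imb Rv hv _ hx
      intro h hh
      by_cases h1 : h = 0
      · exact Or.inl h1
      · exact Or.inr (h0 h hh h1)
  · exact real' Rv hv

end Pool.Agent.ETCG
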