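import Pool.Agent.ETCG.Fam

/-!
# Rigid elements outside `H = V_e`, case `H ≠ 0` (helper13)
-/

set_option autoImplicit false
set_option linter.unusedSimpArgs false
set_option linter.unusedVariables false
set_option linter.unusedSectionVars false
set_option linter.unnecessarySeqFocus false

namespace Pool.Agent.ETCG

open Pool.Agent.Helper58.PLine (QData)
open Pool.Agent.ETCP

variable {V Q : Type} [AddCommGroup V] [Module (ZMod 2) V] {S : QData V Q}

variable (S) in
/-- `Y = V_v ∩ H^⊥` -/
def YY (v : V) : Submodule (ZMod 2) V where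
  carrier := {a | C S v a ∧ ∀ h, C S S.e h → C S a h}
  add_mem' := fun {a b} ha hb => ⟨ha.1.add hb.1, fun h hh => (ha.2 h hh).add' (hb.2 h hh)⟩
  zero_mem' := ⟨C.zero v, fun h _ => C.zero' h⟩
  smul_mem' := by
    intro c a ha
    rcases Pool.Agent.Helper58.PLine.zm c with rfl | rfl
    · rw [zero_smul]; exact ⟨C.zero v, fun h _ => C.zero' h⟩
    · rw [one_smul]; exact ha

theorem mem_YY {v a : V} : a ∈ YY S v ↔ C S v a ∧ ∀ h, C S S.e h → C S a h := Iff.rfl

/-- `H` commutes with `a` or with `a + v` -/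
theorem Rg.cov {v a : V} (R : Rg S v) (ha : C S v a) :
    (∀ h, C S S.e h → C S a h) ∨ (∀ h, C S S.e h → C S (a + v) h) := by
  have key : ∀ h, C S S.e h → C S h a ∨ C S h (a + v) := by
    intro h hh
    have e1 : S.q (v + S.e) a = S.q S.e a := q_eq'_iff.2 (by exact cof (ha) (by apply eo; abel_nf; try simp only [ch2, ch3, ch4, ch5, ch6, add_zero, zero_add]) (by apply eo; abel_nf; try simp only [ch2, ch3, ch4, ch5, ch6, add_zero, zero_add]))
    have e2 : S.q S.e a = S.q (a + h) S.e := by
      rw [S.symm (a + h) S.e]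
      exact q_eq_iff.2 (by exact cof (hh) (by apply eo; abel_nf; try simp only [ch2, ch3, ch4, ch5, ch6, add_zero, zero_add]) (by apply eo; abel_nf; try simp only [ch2, ch3, ch4, ch5, ch6, add_zero, zero_add]))
    rcases R.slot (e1.trans e2) with h1 | h1
    · left
      exact cof ((h1.add' (C.diag' a)).add' ha) (by apply eo; abel_nf; try simp only [ch2, ch3, ch4, ch5, ch6, add_zero, zero_add]) (by apply eo; abel_nf; try simp only [ch2, ch3, ch4, ch5, ch6, add_zero, zero_add])
    · right
      exact cof (h1.add' (C.diag' (a + v))) (by apply eo; abel_nf; try simp only [ch2, ch3, ch4, ch5, ch6, add_zero, zero_add]) (by apply eo; abel_nf; try simp only [ch2, ch3, ch4, ch5, ch6, add_zero, zero_add])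
  by_contra hcon
  push Not at hcon
  obtain ⟨⟨h1, k1, n1⟩, ⟨h2, k2, n2⟩⟩ := hcon
  have m1 : C S h1 (a + v) := (key h1 k1).resolve_left (fun h => n1 h.symm)
  have m2 : C S h2 a := (key h2 k2).resolve_right (fun h => n2 h.symm)
  rcases key (h1 + h2) (k1.add k2) with h | h
  · exact n1 (by exact cof ((h.add' m2).symm) (by apply eo; abel_nf; try simp only [ch2, ch3, ch4, ch5, ch6, add_zero, zero_add]) (by apply eo; abel_nf; try simp only [ch2, ch3, ch4, ch5, ch6, add_zero, zero_add]))
  · exact n2 (by exact cof ((h.add' m1).symm) (by apply eo; abel_nf; try simp only [ch2, ch3, ch4, ch5, ch6, add_zero, zero_add]) (by apply eo; abel_nf; try simp only [ch2, ch3, ch4, ch5, ch6, add_zero, zero_add]))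

/-- the context: `v` rigid, `v ∉ H`, `H ≠ 0` -/
structure Ct (S : QData V Q) (v h0 : V) : Prop where
  R : Rg S v
  nv : ¬ C S S.e v
  hne : h0 ≠ 0
  hh : C S S.e h0

namespace Ct

variable {v h0 : V} (X : Ct S v h0)
include X

theorem WH {w : V} (h1 : C S v w) (h2 : C S S.e w) : w = 0 := by
  rcases X.R.rig w (h1.add' h2) with h | h
  · exact h
  · exact absurd (h ▸ h2) X.nv

theorem nvh : ¬ C S v h0 := fun h => X.hne (X.WH h X.hh)

theorem nvv : ¬ C S v v := by
  intro h
  apply X.nv
  exact cof ((h.add (C.diag v)).symm) (by apply eo; abel_nf; try simp only [ch2, ch3, ch4, ch5, ch6, add_zero, zero_add]) (by apply eo; abel_nf; try simp only [ch2, ch3, ch4, ch5, ch6, add_zero, zero_add])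

theorem two {a : V} (ha : C S v a) : a ∈ YY S v ∨ a + v + S.e ∈ YY S v := by
  rcases X.R.cov ha with h | h
  · exact Or.inl ⟨ha, h⟩
  · right
    exact ⟨by exact cof (ha.add (C.diag v)) (by apply eo; abel_nf; try simp only [ch2, ch3, ch4, ch5, ch6, add_zero, zero_add]) (by apply eo; abel_nf; try simp only [ch2, ch3, ch4, ch5, ch6, add_zero, zero_add]), fun k hk => (h k hk).add' hk⟩

theorem fivec {a t : V} (ha : a ∈ YY S v) (ht : C S (a + v) t) : C S v t := by
  by_contra nvt
  obtain ⟨hva, haH⟩ := ha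
  have e1 : S.q (v + S.e + t) (a + v) = S.q (v + S.e) (a + v) := q_eq'_iff.2 (by exact cof (ht.symm) (by apply eo; abel_nf; try simp only [ch2, ch3, ch4, ch5, ch6, add_zero, zero_add]) (by apply eo; abel_nf; try simp only [ch2, ch3, ch4, ch5, ch6, add_zero, zero_add]))
  have e2 : S.q (v + S.e) (a + v) = S.q (v + S.e) a := q_eq_iff.2 (by exact cof (X.R.uv) (by apply eo; abel_nf; try simp only [ch2, ch3, ch4, ch5, ch6, add_zero, zero_add]) (by apply eo; abel_nf; try simp only [ch2, ch3, ch4, ch5, ch6, add_zero, zero_add]))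
  have e3 : S.q (v + S.e) a = S.q S.e a := q_eq'_iff.2 (by exact cof (hva) (by apply eo; abel_nf; try simp only [ch2, ch3, ch4, ch5, ch6, add_zero, zero_add]) (by apply eo; abel_nf; try simp only [ch2, ch3, ch4, ch5, ch6, add_zero, zero_add]))
  obtain ⟨x, k1, k2, k3⟩ := link ((e1.trans e2).trans e3)
  obtain ⟨h, hx⟩ : ∃ h, h = a + x := ⟨_, rfl⟩
  have hxa : x = a + h := by rw [hx]; (apply eo; abel_nf; try simp only [ch2, ch3, ch4, ch5, ch6, add_zero, zero_add])
  have hh : C S S.e h := by rw [hx]; exact k2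
  rw [hxa] at k3
  have k4 : C S (v + t) (a + h) := by exact cof (k3) (by apply eo; abel_nf; try simp only [ch2, ch3, ch4, ch5, ch6, add_zero, zero_add]) (by apply eo; abel_nf; try simp only [ch2, ch3, ch4, ch5, ch6, add_zero, zero_add])
  have E : S.q h (v + t) = S.q v t := by
    have f1 : S.q h (v + t) = S.q a (v + t) := q_eq'_iff.2 (by exact cof (k4.symm) (by apply eo; abel_nf; try simp only [ch2, ch3, ch4, ch5, ch6, add_zero, zero_add]) (by apply eo; abel_nf; try simp only [ch2, ch3, ch4, ch5, ch6, add_zero, zero_add]))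
    have f2' : S.q a (v + t) = S.q a t := q_eq_iff.2 (by exact cof (hva.symm) (by apply eo; abel_nf; try simp only [ch2, ch3, ch4, ch5, ch6, add_zero, zero_add]) (by apply eo; abel_nf; try simp only [ch2, ch3, ch4, ch5, ch6, add_zero, zero_add]))
    have f3 : S.q a t = S.q v t := q_eq'_iff.2 ht
    rw [f1, f2', f3]
  have hz0 : C S v h → False := by
    intro h1
    have h2 : h = 0 := X.WH h1 hh
    rw [h2] at E
    apply nvt
    unfold C
    rw [← E]
    exact C.zero' (v + t)
  have t1 : ETC.tri S v t h = 0 := by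
    apply tri_congr_q E
    have s1 : ETC.tri S h (v + t) (h + S.e) = 0 := tri_of_slot (C.diag h) rfl
    have s2 : ETC.tri S h (v + t) S.e = 0 := tri_of_slot hh.symm rfl
    have s3 := tri_addz s1 s2
    have : h + S.e + S.e = h := by (apply eo; abel_nf; try simp only [ch2, ch3, ch4, ch5, ch6, add_zero, zero_add])
    rwa [this] at s3
  have t2 : ETC.tri S (v + S.e) h t = 0 := by
    have s1 : ETC.tri S t h v = 0 := by
      rw [ETC.tri_swap23 t h v, ETC.tri_swap12 t v h]
      exact t1
    have s2 : ETC.tri S t h S.e = 0 := tri_of_slot hh.symm (S.symm t h)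
    have s3 := tri_addz s1 s2
    have s4 : ETC.tri S (v + S.e) h t = ETC.tri S t h (v + S.e) := by
      rw [ETC.tri_swap23 t h (v + S.e), ETC.tri_swap12 t (v + S.e) h, ETC.tri_swap23]
    rw [s4]
    exact s3
  rcases X.R.tri_iff'.1 t2 with h1 | h1 | h1 | h1
  · -- `q (h, t) = 0`
    have f1 : S.q (v + S.e) h = S.q v h := q_eq'_iff.2 (by exact cof (hh) (by apply eo; abel_nf; try simp only [ch2, ch3, ch4, ch5, ch6, add_zero, zero_add]) (by apply eo; abel_nf; try simp only [ch2, ch3, ch4, ch5, ch6, add_zero, zero_add]))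
    have f2' : S.q h v = S.q h (v + t) := q_eq_iff.2 (by exact cof (h1) (by apply eo; abel_nf; try simp only [ch2, ch3, ch4, ch5, ch6, add_zero, zero_add]) (by apply eo; abel_nf; try simp only [ch2, ch3, ch4, ch5, ch6, add_zero, zero_add]))
    have f3 : S.q v t = S.q a t := q_eq'_iff.2 (by exact cof (ht) (by apply eo; abel_nf; try simp only [ch2, ch3, ch4, ch5, ch6, add_zero, zero_add]) (by apply eo; abel_nf; try simp only [ch2, ch3, ch4, ch5, ch6, add_zero, zero_add]))
    have f4 : S.q (v + S.e) h = S.q a t := by rw [f1, S.symm v h, f2', E, f3]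
    rcases X.R.slot f4 with h2 | h2
    · apply hz0
      exact cof ((h2.add' (haH h hh)).add' hh) (by apply eo; abel_nf; try simp only [ch2, ch3, ch4, ch5, ch6, add_zero, zero_add]) (by apply eo; abel_nf; try simp only [ch2, ch3, ch4, ch5, ch6, add_zero, zero_add])
    · apply hz0
      have h3 : C S (v + S.e) (h + v) := by
        exact cof (h2.add' ((haH h hh).add hva.symm)) (by apply eo; abel_nf; try simp only [ch2, ch3, ch4, ch5, ch6, add_zero, zero_add]) (by apply eo; abel_nf; try simp only [ch2, ch3, ch4, ch5, ch6, add_zero, zero_add])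
      have h4 : C S (v + S.e) h := by exact cof (h3.add X.R.uv) (by apply eo; abel_nf; try simp only [ch2, ch3, ch4, ch5, ch6, add_zero, zero_add]) (by apply eo; abel_nf; try simp only [ch2, ch3, ch4, ch5, ch6, add_zero, zero_add])
      exact cof (h4.add' hh) (by apply eo; abel_nf; try simp only [ch2, ch3, ch4, ch5, ch6, add_zero, zero_add]) (by apply eo; abel_nf; try simp only [ch2, ch3, ch4, ch5, ch6, add_zero, zero_add])
  · apply nvt
    unfold C
    rw [← E]
    exact cof (h1) (by apply eo; abel_nf; try simp only [ch2, ch3, ch4, ch5, ch6, add_zero, zero_add]) (by apply eo; abel_nf; try simp only [ch2, ch3, ch4, ch5, ch6, add_zero, zero_add])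
  · apply hz0
    have f1 : S.q h t = S.q v t := q_eq'_iff.2 h1
    have f2' : S.q h t = S.q h (v + t) := by rw [f1, E]
    have h3 : C S h v := by exact cof (q_eq_iff.1 f2') (by apply eo; abel_nf; try simp only [ch2, ch3, ch4, ch5, ch6, add_zero, zero_add]) (by apply eo; abel_nf; try simp only [ch2, ch3, ch4, ch5, ch6, add_zero, zero_add])
    exact h3.symm
  · apply X.nvv
    have f1 : S.q h (t + v) = S.q v (t + v) := q_eq'_iff.2 h1
    have f2' : S.q v (t + v) = S.q v t := by
      rw [← f1, ← E, add_comm]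
    exact cof (q_eq_iff.1 f2') (by apply eo; abel_nf; try simp only [ch2, ch3, ch4, ch5, ch6, add_zero, zero_add]) (by apply eo; abel_nf; try simp only [ch2, ch3, ch4, ch5, ch6, add_zero, zero_add])

theorem tf {a : V} (ha : a ∈ YY S v) : TF S a := by
  intro c hc
  have e1 : S.q S.e a = S.q (v + S.e) a := q_eq'_iff.2 (by exact cof (ha.1) (by apply eo; abel_nf; try simp only [ch2, ch3, ch4, ch5, ch6, add_zero, zero_add]) (by apply eo; abel_nf; try simp only [ch2, ch3, ch4, ch5, ch6, add_zero, zero_add]))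
  have hva := ha.1
  rcases X.R.tri_iff'.1 (tri_congr_q e1 hc) with h | h | h | h
  · exact h
  · exact cof (h.add hva.symm) (by apply eo; abel_nf; try simp only [ch2, ch3, ch4, ch5, ch6, add_zero, zero_add]) (by apply eo; abel_nf; try simp only [ch2, ch3, ch4, ch5, ch6, add_zero, zero_add])
  · exact cof (h.add' (X.fivec ha h)) (by apply eo; abel_nf; try simp only [ch2, ch3, ch4, ch5, ch6, add_zero, zero_add]) (by apply eo; abel_nf; try simp only [ch2, ch3, ch4, ch5, ch6, add_zero, zero_add])
  · have h1 := X.fivec ha h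
    have h2 : C S a (c + v) := by exact cof (h.add' h1) (by apply eo; abel_nf; try simp only [ch2, ch3, ch4, ch5, ch6, add_zero, zero_add]) (by apply eo; abel_nf; try simp only [ch2, ch3, ch4, ch5, ch6, add_zero, zero_add])
    exact cof (h2.add hva.symm) (by apply eo; abel_nf; try simp only [ch2, ch3, ch4, ch5, ch6, add_zero, zero_add]) (by apply eo; abel_nf; try simp only [ch2, ch3, ch4, ch5, ch6, add_zero, zero_add])

theorem YH {c : V} (hc : c ∈ YY S v) (h : C S S.e c) : c = 0 := X.WH hc.1 h

end Ct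

/-- the context with an element `m` of `Y` such that `V_m ∩ Y = 0` -/
structure Cm (S : QData V Q) (v h0 m : V) : Prop where
  X : Ct S v h0
  hm : m ∈ YY S v
  tr : ∀ c ∈ YY S v, C S m c → c = 0

theorem Ct.exists_m [Finite V] {v h0 : V} (X : Ct S v h0) : ∃ m, Cm S v h0 m := by
  obtain ⟨m, hm, h⟩ := exists_triv (S := S) (YY S v) (fun n hn => X.tf hn)
    (fun c hc h => X.YH hc h)
  exact ⟨m, X, hm, h⟩

namespace Cm

variable {v h0 m : V} (X : Cm S v h0 m)
include X

theorem mv : C S m v := X.hm.1.symm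

theorem vv' : C S v (m + v + S.e) := by exact cof (X.hm.1.add (C.diag v)) (by apply eo; abel_nf; try simp only [ch2, ch3, ch4, ch5, ch6, add_zero, zero_add]) (by apply eo; abel_nf; try simp only [ch2, ch3, ch4, ch5, ch6, add_zero, zero_add])

theorem mv' : C S m (m + v + S.e) := by exact cof (X.mv.add (C.diag m)) (by apply eo; abel_nf; try simp only [ch2, ch3, ch4, ch5, ch6, add_zero, zero_add]) (by apply eo; abel_nf; try simp only [ch2, ch3, ch4, ch5, ch6, add_zero, zero_add])

theorem rg' : Rg S (m + v + S.e) := by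
  have hs := small_rig (S := S) (n := m) (x := v) (P := YY S v) (X.X.tf X.hm) X.mv X.hm
    (fun c hc => X.X.two hc) (fun c hc _ h => X.tr c hc h)
  refine ⟨?_, ?_, ?_⟩
  · intro h
    have h1 : m = v + S.e := by
      have h2 : m = (m + v + S.e) + (v + S.e) := by (apply eo; abel_nf; try simp only [ch2, ch3, ch4, ch5, ch6, add_zero, zero_add])
      rw [h2, h]; (apply eo; abel_nf; try simp only [ch2, ch3, ch4, ch5, ch6, add_zero, zero_add])
    have h2 := X.hm.2 h0 X.X.hh
    rw [h1] at h2
    rcases X.X.R.rig _ h2 with h3 | h3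
    · exact X.X.hne h3
    · apply X.X.nv
      rw [← h3]; exact X.X.hh
  · intro h
    have h1 : m = v := by
      have h2 : m = (m + v + S.e) + (v + S.e) := by (apply eo; abel_nf; try simp only [ch2, ch3, ch4, ch5, ch6, add_zero, zero_add])
      rw [h2, h]; (apply eo; abel_nf; try simp only [ch2, ch3, ch4, ch5, ch6, add_zero, zero_add])
    apply X.X.nvv
    have h2 := X.hm.1
    rwa [h1] at h2
  · intro y hy
    rcases hs y (by exact cof (hy) (by apply eo; abel_nf; try simp only [ch2, ch3, ch4, ch5, ch6, add_zero, zero_add]) (by apply eo; abel_nf; try simp only [ch2, ch3, ch4, ch5, ch6, add_zero, zero_add])) with h | h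
    · exact Or.inl h
    · right; rw [h]; (apply eo; abel_nf; try simp only [ch2, ch3, ch4, ch5, ch6, add_zero, zero_add])

theorem nv' : ¬ C S S.e (m + v + S.e) := by
  intro h
  exact X.rg'.ne0 (X.X.WH X.vv' h)

theorem ct' : Ct S (m + v + S.e) h0 := ⟨X.rg', X.nv', X.X.hne, X.X.hh⟩

theorem amax {a : V} (ha : a ∈ YY S v) : C S a (m + S.e) := by
  have e1 : S.q (m + v + S.e + S.e) a = S.q m a := q_eq'_iff.2 (by exact cof (ha.1) (by apply eo; abel_nf; try simp only [ch2, ch3, ch4, ch5, ch6, add_zero, zero_add]) (by apply eo; abel_nf; try simp only [ch2, ch3, ch4, ch5, ch6, add_zero, zero_add]))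
  have e2 : S.q m a = S.q (a + h0) m := by
    rw [S.symm (a + h0) m]
    exact q_eq_iff.2 (by exact cof (X.hm.2 h0 X.X.hh) (by apply eo; abel_nf; try simp only [ch2, ch3, ch4, ch5, ch6, add_zero, zero_add]) (by apply eo; abel_nf; try simp only [ch2, ch3, ch4, ch5, ch6, add_zero, zero_add]))
  rcases X.rg'.slot (e1.trans e2) with h | h
  · have h1 : C S h0 a := (ha.2 h0 X.X.hh).symm
    have h2 : C S v a := ha.1
    have h3 : C S (m + S.e) a := by
      exact cof (((h.add' h1).add' h2).add' (C.diag' a)) (by apply eo; abel_nf; try simp only [ch2, ch3, ch4, ch5, ch6, add_zero, zero_add]) (by apply eo; abel_nf; try simp only [ch2, ch3, ch4, ch5, ch6, add_zero, zero_add])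
    exact h3.symm
  · exfalso
    have h' : C S (a + h0 + m + v) (a + m + v + S.e) := by exact cof (h) (by apply eo; abel_nf; try simp only [ch2, ch3, ch4, ch5, ch6, add_zero, zero_add]) (by apply eo; abel_nf; try simp only [ch2, ch3, ch4, ch5, ch6, add_zero, zero_add])
    have h1 : C S h0 (a + m + v + S.e) := by
      exact cof (h'.add' (C.diag (a + m + v))) (by apply eo; abel_nf; try simp only [ch2, ch3, ch4, ch5, ch6, add_zero, zero_add]) (by apply eo; abel_nf; try simp only [ch2, ch3, ch4, ch5, ch6, add_zero, zero_add])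
    have h2 : C S h0 (v + S.e) := by
      exact cof ((h1.add (ha.2 h0 X.X.hh).symm).add (X.hm.2 h0 X.X.hh).symm) (by apply eo; abel_nf; try simp only [ch2, ch3, ch4, ch5, ch6, add_zero, zero_add]) (by apply eo; abel_nf; try simp only [ch2, ch3, ch4, ch5, ch6, add_zero, zero_add])
    have h3 : C S h0 v := by exact cof (h2.add X.X.hh.symm) (by apply eo; abel_nf; try simp only [ch2, ch3, ch4, ch5, ch6, add_zero, zero_add]) (by apply eo; abel_nf; try simp only [ch2, ch3, ch4, ch5, ch6, add_zero, zero_add])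
    exact X.X.nvh h3.symm

theorem dual : Cm S (m + v + S.e) h0 m := by
  refine ⟨X.ct', ⟨X.mv'.symm, X.hm.2⟩, ?_⟩
  intro c hc hmc
  have h1 : C S (v + S.e) c := by exact cof (hc.1.add' hmc) (by apply eo; abel_nf; try simp only [ch2, ch3, ch4, ch5, ch6, add_zero, zero_add]) (by apply eo; abel_nf; try simp only [ch2, ch3, ch4, ch5, ch6, add_zero, zero_add])
  rcases X.X.R.rig _ h1 with h2 | h2
  · exact h2
  · exfalso
    have h3 := hc.2 h0 X.X.hh
    rw [h2] at h3
    exact X.X.nvh h3

theorem YY_sub {a : V} (ha : a ∈ YY S v) : a ∈ YY S (m + v + S.e) := by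
  refine ⟨?_, ha.2⟩
  have h1 := (X.amax ha).symm
  have h2 := ha.1
  exact cof (h1.add' h2) (by apply eo; abel_nf; try simp only [ch2, ch3, ch4, ch5, ch6, add_zero, zero_add]) (by apply eo; abel_nf; try simp only [ch2, ch3, ch4, ch5, ch6, add_zero, zero_add])

theorem YY_eq {a : V} : a ∈ YY S (m + v + S.e) ↔ a ∈ YY S v := by
  constructor
  · intro h
    refine ⟨?_, h.2⟩
    have h1 := (X.dual.amax h).symm
    have h2 := h.1
    exact cof (h1.add' h2) (by apply eo; abel_nf; try simp only [ch2, ch3, ch4, ch5, ch6, add_zero, zero_add]) (by apply eo; abel_nf; try simp only [ch2, ch3, ch4, ch5, ch6, add_zero, zero_add])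
  · exact X.YY_sub

theorem two1 {a : V} (ha : C S v a) : a ∈ YY S v ∨ a + (m + v + S.e) ∈ YY S v := by
  rcases X.X.two ha with h | h
  · exact Or.inl h
  · right
    have h1 := (YY S v).add_mem h X.hm
    have : a + v + S.e + m = a + (m + v + S.e) := by (apply eo; abel_nf; try simp only [ch2, ch3, ch4, ch5, ch6, add_zero, zero_add])
    rwa [this] at h1

theorem two2 {a : V} (ha : C S (m + v + S.e) a) : a ∈ YY S v ∨ a + v ∈ YY S v := by
  rcases X.ct'.two ha with h | h
  · exact Or.inl (X.YY_eq.1 h)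
  · right
    have h1 := (YY S v).add_mem (X.YY_eq.1 h) X.hm
    have : a + (m + v + S.e) + S.e + m = a + v := by (apply eo; abel_nf; try simp only [ch2, ch3, ch4, ch5, ch6, add_zero, zero_add])
    rwa [this] at h1

theorem both {a : V} (ha : C S v a) (ha' : C S (m + v + S.e) a) : a ∈ YY S v := by
  rcases X.two1 ha with h | h
  · exact h
  · exfalso
    apply X.ct'.nvv
    have h1 : C S (m + v + S.e) (a + (m + v + S.e)) := (X.YY_sub h).1
    exact cof (ha'.add h1) (by apply eo; abel_nf; try simp only [ch2, ch3, ch4, ch5, ch6, add_zero, zero_add]) (by apply eo; abel_nf; try simp only [ch2, ch3, ch4, ch5, ch6, add_zero, zero_add])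

theorem FY {a c : V} (ha : a ∈ YY S v) (hc : C S m c) : C S a c := by
  apply (X.X.tf ha).sub (X.amax ha)
  exact cof (hc) (by apply eo; abel_nf; try simp only [ch2, ch3, ch4, ch5, ch6, add_zero, zero_add]) (by apply eo; abel_nf; try simp only [ch2, ch3, ch4, ch5, ch6, add_zero, zero_add])

end Cm

/-- `D = Y + V_m` -/
def DD (S : QData V Q) (v m : V) : Submodule (ZMod 2) V := YY S v ⊔ S.ann m

namespace Cm

variable {v h0 m : V} (X : Cm S v h0 m)
include X

theorem inY {a : V} (ha : a ∈ YY S v) : a ∈ DD S v m := Submodule.mem_sup_left ha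

theorem inF {a : V} (ha : C S m a) : a ∈ DD S v m := Submodule.mem_sup_right ha

theorem Dh {h : V} (hh : C S S.e h) : h ∈ DD S v m := X.inF (X.hm.2 h hh)

theorem Dv : v ∈ DD S v m := X.inF X.mv

theorem Dv' : m + v + S.e ∈ DD S v m := X.inF X.mv'

theorem De : S.e ∈ DD S v m := by
  have h1 : m + S.e ∈ DD S v m := X.inF (C.diag m)
  have h2 := (DD S v m).add_mem (X.inY X.hm) h1
  have : m + (m + S.e) = S.e := by (apply eo; abel_nf; try simp only [ch2, ch3, ch4, ch5, ch6, add_zero, zero_add])
  rwa [this] at h2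

theorem DV {a : V} (ha : C S v a) : a ∈ DD S v m := by
  rcases X.two1 ha with h | h
  · exact X.inY h
  · have h2 := (DD S v m).add_mem (X.inY h) X.Dv'
    have : a + (m + v + S.e) + (m + v + S.e) = a := by (apply eo; abel_nf; try simp only [ch2, ch3, ch4, ch5, ch6, add_zero, zero_add])
    rwa [this] at h2

theorem DV' {a : V} (ha : C S (m + v + S.e) a) : a ∈ DD S v m := by
  rcases X.two2 ha with h | h
  · exact X.inY h
  · have h2 := (DD S v m).add_mem (X.inY h) X.Dv
    have : a + v + v = a := by (apply eo; abel_nf; try simp only [ch2, ch3, ch4, ch5, ch6, add_zero, zero_add])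
    rwa [this] at h2

/-- if `z ∉ D` is small with respect to `v` and `v'` then `V_z ⊆ Y + <z + e>` -/
theorem sm {z : V} (hz : z ∉ DD S v m) (h1 : Mn S z v) (h2 : Mn S z (m + v + S.e)) :
    ∀ c, C S z c → c ∈ YY S v ∨ c + z + S.e ∈ YY S v := by
  have aux : ∀ c, c ∈ DD S v m → c + z + S.e ∈ DD S v m → False := by
    intro c hc hc'
    apply hz
    have h3 := (DD S v m).add_mem ((DD S v m).add_mem hc hc') X.De
    have : c + (c + z + S.e) + S.e = z := by (apply eo; abel_nf; try simp only [ch2, ch3, ch4, ch5, ch6, add_zero, zero_add])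
    rwa [this] at h3
  intro c hc
  rcases h1 c hc with a1 | a1 <;> rcases h2 c hc with a2 | a2
  · left; exact X.both a1 a2
  · exact (aux c (X.DV a1) (X.DV' a2)).elim
  · exact (aux c (X.DV' a2) (X.DV a1)).elim
  · right; exact X.both a1 a2

theorem rgD {z : V} (Rz : Rg S z) (hzH : ¬ C S S.e z) (hz : z ∉ DD S v m) :
    ∀ c, C S z c → c ∈ YY S v ∨ c + z + S.e ∈ YY S v := by
  have hnv : z ≠ v := fun h => hz (h ▸ X.Dv)
  have hnv' : z ≠ m + v + S.e := fun h => hz (h ▸ X.Dv')
  have nc : ¬ C S z v := fun h => hz (X.DV h.symm)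
  have nc' : ¬ C S z (m + v + S.e) := fun h => hz (X.DV' h.symm)
  have nm : ¬ C S z m := fun h => hz (X.inF h.symm)
  have back : ∀ h, C S S.e h → z + h ∈ DD S v m → False := by
    intro h hh h1
    apply hz
    have h3 := (DD S v m).add_mem h1 (X.Dh hh)
    have : z + h + h = z := by (apply eo; abel_nf; try simp only [ch2, ch3, ch4, ch5, ch6, add_zero, zero_add])
    rwa [this] at h3
  have m1 : Mn S z v := by
    rcases Rz.lemF X.X.R hnv nc (fun h hh h1 => back h hh (X.DV h1.symm)) with h | h
    · exact h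
    · exfalso
      rcases h m X.hm.1 with h1 | h1
      · exact nm h1
      · exact nc' h1
  have m2 : Mn S z (m + v + S.e) := by
    rcases Rz.lemF X.rg' hnv' nc' (fun h hh h1 => back h hh (X.DV' h1.symm)) with h | h
    · exact h
    · exfalso
      rcases h m X.mv'.symm with h1 | h1
      · exact nm h1
      · exact nc (by exact cof (h1) (by apply eo; abel_nf; try simp only [ch2, ch3, ch4, ch5, ch6, add_zero, zero_add]) (by apply eo; abel_nf; try simp only [ch2, ch3, ch4, ch5, ch6, add_zero, zero_add]))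
  exact X.sm hz m1 m2

theorem YY_lt {z : V} (Rz : Rg S z) (hzH : ¬ C S S.e z) (hz : z ∉ DD S v m) :
    YY S z < YY S v := by
  have h1 := X.rgD Rz hzH hz
  have h2 : YY S z ≤ YY S v := by
    intro c hc
    rcases h1 c hc.1 with h3 | h3
    · exact h3
    · exfalso
      have h4 : C S (z + S.e) h0 := by
        exact cof ((h3.2 h0 X.X.hh).add' (hc.2 h0 X.X.hh)) (by apply eo; abel_nf; try simp only [ch2, ch3, ch4, ch5, ch6, add_zero, zero_add]) (by apply eo; abel_nf; try simp only [ch2, ch3, ch4, ch5, ch6, add_zero, zero_add])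
      rcases Rz.rig _ h4 with h5 | h5
      · exact X.X.hne h5
      · exact hzH (h5 ▸ X.X.hh)
  refine lt_of_le_of_ne h2 ?_
  intro h
  have h3 : m ∈ YY S z := by rw [h]; exact X.hm
  exact hz (X.inF h3.1.symm)

/-- `m + v + e` is not a slot -/
theorem final {x : V} (a1 : Mn S x v) (a2 : Mn S (x + v + (m + v + S.e)) v)
    (b1 : ¬ Mn S x (m + v + S.e)) (b2 : ¬ Mn S (x + v + (m + v + S.e)) (m + v + S.e)) : False := by
  have pick : ∀ x, Mn S x v → ¬ Mn S x (m + v + S.e) →
      ∃ y ∈ YY S v, C S x (y + (m + v + S.e)) := by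
    intro x h1 h2
    unfold Mn at h2
    push Not at h2
    obtain ⟨c, hc, n1, n2⟩ := h2
    rcases h1 c hc with h3 | h3
    · rcases X.two1 h3 with h4 | h4
      · exact absurd (X.YY_sub h4).1 n1
      · refine ⟨_, h4, ?_⟩
        exact cof (hc) (by apply eo; abel_nf; try simp only [ch2, ch3, ch4, ch5, ch6, add_zero, zero_add]) (by apply eo; abel_nf; try simp only [ch2, ch3, ch4, ch5, ch6, add_zero, zero_add])
    · rcases X.two1 h3 with h4 | h4
      · exact absurd (X.YY_sub h4).1 n2
      · refine ⟨_, h4, ?_⟩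
        exact cof (hc.add (C.diag x)) (by apply eo; abel_nf; try simp only [ch2, ch3, ch4, ch5, ch6, add_zero, zero_add]) (by apply eo; abel_nf; try simp only [ch2, ch3, ch4, ch5, ch6, add_zero, zero_add])
  obtain ⟨y0, hy0, c0⟩ := pick x a1 b1
  obtain ⟨y1, hy1, c1⟩ := pick _ a2 b2
  have hy := (YY S v).add_mem hy0 hy1
  -- `q (x, y0 + y1) = q (v', v')`
  have e1 : S.q x (y0 + y1) = S.q x (y1 + (m + v + S.e)) := q_eq_iff.2 (by exact cof (c0) (by apply eo; abel_nf; try simp only [ch2, ch3, ch4, ch5, ch6, add_zero, zero_add]) (by apply eo; abel_nf; try simp only [ch2, ch3, ch4, ch5, ch6, add_zero, zero_add]))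
  have e2 : S.q x (y1 + (m + v + S.e)) = S.q (m + S.e) (y1 + (m + v + S.e)) :=
    q_eq'_iff.2 (by exact cof (c1) (by apply eo; abel_nf; try simp only [ch2, ch3, ch4, ch5, ch6, add_zero, zero_add]) (by apply eo; abel_nf; try simp only [ch2, ch3, ch4, ch5, ch6, add_zero, zero_add]))
  have e3 : S.q (m + S.e) (y1 + (m + v + S.e)) = S.q (m + S.e) (m + v + S.e) :=
    q_eq_iff.2 (by exact cof ((X.amax hy1).symm) (by apply eo; abel_nf; try simp only [ch2, ch3, ch4, ch5, ch6, add_zero, zero_add]) (by apply eo; abel_nf; try simp only [ch2, ch3, ch4, ch5, ch6, add_zero, zero_add]))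
  have e4 : S.q (m + S.e) (m + v + S.e) = S.q (m + v + S.e) (m + v + S.e) :=
    q_eq'_iff.2 (by exact cof (X.vv') (by apply eo; abel_nf; try simp only [ch2, ch3, ch4, ch5, ch6, add_zero, zero_add]) (by apply eo; abel_nf; try simp only [ch2, ch3, ch4, ch5, ch6, add_zero, zero_add]))
  have e5 : S.q (y0 + y1) x = S.q (m + v + S.e) (m + v + S.e) := by
    rw [S.symm (y0 + y1) x, e1, e2, e3, e4]
  obtain ⟨r, h1, h2, h3⟩ := link e5
  have h4 : C S (m + v + S.e) r := X.ct'.fivec (X.YY_sub hy) (by exact cof (h3) (by apply eo; abel_nf; try simp only [ch2, ch3, ch4, ch5, ch6, add_zero, zero_add]) (by apply eo; abel_nf; try simp only [ch2, ch3, ch4, ch5, ch6, add_zero, zero_add]))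
  exact X.ct'.nvv (by exact cof (h2.add h4) (by apply eo; abel_nf; try simp only [ch2, ch3, ch4, ch5, ch6, add_zero, zero_add]) (by apply eo; abel_nf; try simp only [ch2, ch3, ch4, ch5, ch6, add_zero, zero_add]))

end Cm

/-- **Rigid elements outside `H = V_e`, case `H ≠ 0`** -/
theorem real [Finite V] {v h0 : V} (Rv : Rg S v) (hv : ¬ C S S.e v) (hne : h0 ≠ 0)
    (hh : C S S.e h0) : (∃ x, Bir S x) ∨ Dec S := by
  obtain ⟨v, ⟨Rv, hv⟩, hmin⟩ := Set.exists_min_image {v : V | Rg S v ∧ ¬ C S S.e v}
    (fun v => Nat.card (YY S v)) (Set.toFinite _) ⟨v, Rv, hv⟩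
  obtain ⟨m, X⟩ := (Ct.mk Rv hv hne hh).exists_m
  have hD : ∀ z, Rg S z → ¬ C S S.e z → z ∈ DD S v m := by
    intro z Rz hz
    by_contra hzD
    have h1 := X.YY_lt Rz hz hzD
    have h2 := hmin z ⟨Rz, hz⟩
    have h3 := Set.ncard_lt_ncard (s := ((YY S z : Submodule (ZMod 2) V) : Set V))
      (t := ((YY S v : Submodule (ZMod 2) V) : Set V)) h1 (Set.toFinite _)
    have e1 : ∀ M : Submodule (ZMod 2) V, (M : Set V).ncard = Nat.card M := fun M => rfl
    rw [e1, e1] at h3
    omega
  have nine : ∀ x, x ∉ DD S v m →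
      ¬ (∀ c, C S x c → c ∈ YY S v ∨ c + x + S.e ∈ YY S v) := by
    intro x hx hcon
    obtain ⟨n, hn, hn0⟩ := exists_triv (S := S) (YY S v ⊓ S.ann x) (fun n hn => X.X.tf hn.1)
      (fun c hc h => X.X.YH hc.1 h)
    have hnx : C S x n := hn.2
    have hsm := small_rig (S := S) (n := n) (x := x) (P := YY S v) (X.X.tf hn.1) hnx.symm hn.1 hcon
      (fun c hc h1 h2 => hn0 c ⟨hc, h1⟩ h2)
    have back : x + n + S.e ∈ DD S v m → False := by
      intro h
      apply hx
      have h3 := (DD S v m).add_mem ((DD S v m).add_mem h (X.inY hn.1)) X.De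
      have : x + n + S.e + n + S.e = x := by (apply eo; abel_nf; try simp only [ch2, ch3, ch4, ch5, ch6, add_zero, zero_add])
      rwa [this] at h3
    have Rz : Rg S (x + n + S.e) := by
      refine ⟨?_, ?_, ?_⟩
      · intro h
        apply back
        rw [h]; exact (DD S v m).zero_mem
      · intro h
        apply back
        rw [h]; exact X.De
      · intro y hy
        exact hsm y (by exact cof (hy) (by apply eo; abel_nf; try simp only [ch2, ch3, ch4, ch5, ch6, add_zero, zero_add]) (by apply eo; abel_nf; try simp only [ch2, ch3, ch4, ch5, ch6, add_zero, zero_add]))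
    apply back
    apply hD _ Rz
    intro h
    exact back (X.Dh h)
  have nb : ∀ x, x ∉ DD S v m → ¬ (Mn S x v ∧ Mn S x (m + v + S.e)) := fun x hx h =>
    nine x hx (X.sm hx h.1 h.2)
  have cp : ∀ w, Rg S w → ∀ x, Mn S x w ∨ Mn S (x + w) w := by
    intro w Rw x
    rcases Rw.comp x with h | h
    · right
      intro c hc
      rcases h c hc with h1 | h1
      · exact Or.inl h1
      · right; exact cof (h1.add (C.diag w)) (by apply eo; abel_nf; try simp only [ch2, ch3, ch4, ch5, ch6, add_zero, zero_add]) (by apply eo; abel_nf; try simp only [ch2, ch3, ch4, ch5, ch6, add_zero, zero_add])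
    · left
      intro c hc
      rcases h c hc with h1 | h1
      · exact Or.inl h1
      · right; exact cof (h1.add (C.diag w)) (by apply eo; abel_nf; try simp only [ch2, ch3, ch4, ch5, ch6, add_zero, zero_add]) (by apply eo; abel_nf; try simp only [ch2, ch3, ch4, ch5, ch6, add_zero, zero_add])
  have top : ∀ x, x ∈ DD S v m := by
    intro x
    by_contra hx
    have hxv : x + v ∉ DD S v m := by
      intro h
      apply hx
      have h3 := (DD S v m).add_mem h X.Dv
      have : x + v + v = x := by (apply eo; abel_nf; try simp only [ch2, ch3, ch4, ch5, ch6, add_zero, zero_add])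
      rwa [this] at h3
    have hxv' : x + (m + v + S.e) ∉ DD S v m := by
      intro h
      apply hx
      have h3 := (DD S v m).add_mem h X.Dv'
      have : x + (m + v + S.e) + (m + v + S.e) = x := by (apply eo; abel_nf; try simp only [ch2, ch3, ch4, ch5, ch6, add_zero, zero_add])
      rwa [this] at h3
    have hxvv' : x + v + (m + v + S.e) ∉ DD S v m := by
      intro h
      apply hxv
      have h3 := (DD S v m).add_mem h X.Dv'
      have : x + v + (m + v + S.e) + (m + v + S.e) = x + v := by (apply eo; abel_nf; try simp only [ch2, ch3, ch4, ch5, ch6, add_zero, zero_add])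
      rwa [this] at h3
    have p1 := cp v X.X.R x
    have p2 := cp v X.X.R (x + (m + v + S.e))
    have p3 := cp _ X.rg' x
    have p4 := cp _ X.rg' (x + v)
    have q1 := nb _ hx
    have q2 := nb _ hxv
    have q3 := nb _ hxv'
    have q4 := nb _ hxvv'
    have r1 : x + (m + v + S.e) + v = x + v + (m + v + S.e) := by (apply eo; abel_nf; try simp only [ch2, ch3, ch4, ch5, ch6, add_zero, zero_add])
    rw [r1] at p2
    by_cases s1 : Mn S x v
    · -- `x` is `v`-small
      have s2 : ¬ Mn S x (m + v + S.e) := fun h => q1 ⟨s1, h⟩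
      have s3 : Mn S (x + (m + v + S.e)) (m + v + S.e) := p3.resolve_left s2
      have s4 : ¬ Mn S (x + (m + v + S.e)) v := fun h => q3 ⟨h, s3⟩
      have s5 := p2.resolve_left s4
      have s6 : ¬ Mn S (x + v + (m + v + S.e)) (m + v + S.e) := fun h => q4 ⟨s5, h⟩
      exact X.final s1 s5 s2 s6
    · have s2 : Mn S (x + v) v := p1.resolve_left s1
      have s3 : ¬ Mn S (x + v) (m + v + S.e) := fun h => q2 ⟨s2, h⟩
      have s4 := p4.resolve_left s3
      have s5 : ¬ Mn S (x + v + (m + v + S.e)) v := fun h => q4 ⟨h, s4⟩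
      have s6 := p2.resolve_right s5
      have s7 : ¬ Mn S (x + (m + v + S.e)) (m + v + S.e) := fun h => q3 ⟨s6, h⟩
      have r2 : x + v + v + (m + v + S.e) = x + (m + v + S.e) := by (apply eo; abel_nf; try simp only [ch2, ch3, ch4, ch5, ch6, add_zero, zero_add])
      exact X.final (x := x + v) s2 (by rw [r2]; exact s6) s3 (by rw [r2]; exact s7)
  by_cases hm0 : m = 0
  · left
    refine ⟨v, X.X.R, fun y hy => ?_⟩
    have z : ∀ c ∈ YY S v, c = 0 := fun c hc => X.tr c hc (by rw [hm0]; exact C.zero' c)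
    rcases X.X.two hy with h | h
    · exact Or.inl (z _ h)
    · right
      have := z _ h
      apply eo
      rw [← this]; (apply eo; abel_nf; try simp only [ch2, ch3, ch4, ch5, ch6, add_zero, zero_add])
  · right
    refine ⟨YY S v, S.ann m, ?_, ?_, ?_, ?_, ?_⟩
    · intro h
      have : m ∈ YY S v := X.hm
      rw [h, Submodule.mem_bot] at this
      exact hm0 this
    · intro h
      have : v ∈ S.ann m := X.mv
      rw [h, Submodule.mem_bot] at this
      exact X.X.R.ne0 this
    · constructor
      · rw [Submodule.disjoint_def]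
        intro x h1 h2
        exact X.tr x h1 h2
      · rw [codisjoint_iff, eq_top_iff]
        intro x _
        exact top x
    · intro a ha b hb
      exact X.FY ha hb
    · intro a ha b hb c hc
      exact (X.X.tf ha).sub' (X.FY ha hb) hc

end Pool.Agent.ETCG
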